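import Pool.Agent.TH291.EX.Exist
import Pool.Agent.TH549.CK.Pub

set_option autoImplicit false

/-! The effective cone for the very general curve. -/

namespace Pool.Agent.TH291.EX

open TensorProduct Pool.Agent.TH549.CK Pool.Agent.TH549.CK.Pub

/-- some positive multiple of the class `n (F₁ + F₂) - y Δ` has a nonzero section -/
structure Eff {K : Type} [Field K] (R : Subalgebra K (LaurentSeries K)) (n y : ℕ) : Prop where
  ex : ∃ r : ℕ, 0 < r ∧ ∃ G : R ⊗[K] R, G ≠ 0 ∧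
    G ∈ Submodule.span K {x | ∃ f h : R, Pole (r * n) (f : LaurentSeries K) ∧
      Pole (r * n) (h : LaurentSeries K) ∧ f ⊗ₜ[K] h = x} ∧
    G ∈ KaehlerDifferential.ideal K R ^ (r * y)

theorem fin_span {K : Type} [Field K] {R : Subalgebra K (LaurentSeries K)} {n : ℕ} {G : R ⊗[K] R}
    (h : G ∈ LinearMap.range (TensorProduct.map (Lp R n).subtype (Lp R n).subtype)) :
    G ∈ Submodule.span K {x : R ⊗[K] R | ∃ f h : R, Pole n (f : LaurentSeries K) ∧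
      Pole n (h : LaurentSeries K) ∧ f ⊗ₜ[K] h = x} := by
  obtain ⟨G', rfl⟩ := h
  induction G' using TensorProduct.induction_on with
  | zero => rw [LinearMap.map_zero]; exact Submodule.zero_mem _
  | tmul f h => exact Submodule.subset_span ⟨f, h, mem_Lp_iff.1 f.2, mem_Lp_iff.1 h.2, rfl⟩
  | add x y hx hy => rw [LinearMap.map_add]; exact Submodule.add_mem _ hx hy

theorem eff_of {R : Subalgebra ℂ (LaurentSeries ℂ)} {g : ℕ} (hg : 0 < g)
    (hR : IsSmoothCurve R g) {n y : ℕ} (h : (1 + √g) * y < n) : Eff R n y := by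
  obtain ⟨r, hr, G, hG0, hG, hI⟩ := exists_section hg hR h
  exact ⟨r, hr, G, hG0, fin_span hG, hI⟩

theorem eff_lt {R : Subalgebra ℂ (LaurentSeries ℂ)} {c : ℝ} (h : Bound c R) {n y : ℕ} (hy : 0 < y)
    (he : Eff R n y) : c * y < n := by
  obtain ⟨r, hr, G, hG0, hG, hI⟩ := he.ex
  have h1 := h.lt (r * n) (r * y) G (Nat.mul_pos hr hy) hG0 hG hI
  have hr' : (0 : ℝ) < r := Nat.cast_pos.2 hr
  push_cast at h1
  have h2 : (r : ℝ) * (c * y) < r * n := by linarith [mul_comm (c * (y : ℝ)) r, mul_left_comm c (r : ℝ) y]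
  exact lt_of_mul_lt_mul_left h2 hr'.le

theorem smooth_of {R : Subalgebra ℂ (LaurentSeries ℂ)} {g : ℕ} (h : IsCurve g R) :
    IsSmoothCurve R g := by
  have := h.dedekind
  refine ⟨inferInstance, fun n hn => ?_⟩
  rw [← h.genus n hn, span_eq]

theorem final {g : ℕ} (hN : NagataStrict g) (hg : 0 < g) :
    ∃ R₀ : Subalgebra ℂ (LaurentSeries ℂ), IsCurve g R₀ ∧
      (∀ n y : ℕ, 0 < y → (Eff R₀ n y ↔ (1 + √g) * y < n)) ∧ BoundJ (1 + √g) R₀ ∧
      ∀ (S : Type) [CommRing S] [IsDomain S] [Algebra ℂ S]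
        (R : (S →ₐ[ℂ] ℂ) → Subalgebra ℂ (LaurentSeries ℂ)), IsFam S g R →
        (∃ φ₀, R φ₀ = R₀) →
        ∃ s : ℕ → S, (∀ j, s j ≠ 0) ∧ ∀ φ : S →ₐ[ℂ] ℂ, (∀ j, φ (s j) ≠ 0) →
          IsIntegrallyClosed (R φ) →
          (∀ n y : ℕ, 0 < y → (Eff (R φ) n y ↔ (1 + √g) * y < n)) ∧ BoundJ (1 + √g) (R φ) := by
  obtain ⟨R₀, h1, h2, h3, h4⟩ := Pub.final hN hg
  refine ⟨R₀, h1, fun n y hy => ⟨eff_lt h2 hy, eff_of hg (smooth_of h1)⟩, h3, ?_⟩
  intro S _ _ _ R hR hφ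
  obtain ⟨s, hs, hs'⟩ := h4 S R hR hφ
  refine ⟨s, hs, fun φ hφ' hi => ?_⟩
  obtain ⟨h5, h6⟩ := hs' φ hφ'
  exact ⟨fun n y hy => ⟨eff_lt h5 hy, eff_of hg ⟨hi, hR.isFamily.genus φ⟩⟩, h6 hi⟩

end Pool.Agent.TH291.EX
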