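import Pool.Agent.TH291.EX.Defs

set_option autoImplicit false

open TensorProduct Pool.Agent.TH549.CK

namespace Pool.Agent.TH291.EX

variable {K : Type} [Field K]

theorem cnt2_sum (A c R : ℕ) : (∑ j ∈ Finset.range R, (2 * A + j * (2 * c) + (2 * c + 3))) + c * R =
    R * (2 * A + 2 * c + 3) + c * R ^ 2 := by
  induction R with
  | zero => simp
  | succ R ih =>
    rw [Finset.sum_range_succ]
    have h : ∑ j ∈ Finset.range R, (2 * A + j * (2 * c) + (2 * c + 3)) + c * R +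
        (2 * A + R * (2 * c) + (2 * c + 3) + c) =
        R * (2 * A + 2 * c + 3) + c * R ^ 2 + (2 * A + R * (2 * c) + (2 * c + 3) + c) := by rw [ih]
    nlinarith [h]

theorem cnt2_disc (c n b : ℕ) (h : (1 + Real.sqrt ((c + 1 : ℕ) : ℝ)) * b < n) :
    ((c : ℤ) + 1) * (b : ℤ) ^ 2 + 1 ≤ ((n : ℤ) - b) ^ 2 ∧ 0 < n := by
  have hs : 0 ≤ Real.sqrt ((c + 1 : ℕ) : ℝ) := Real.sqrt_nonneg _
  have hb : (0 : ℝ) ≤ b := Nat.cast_nonneg b
  have h1 : Real.sqrt ((c + 1 : ℕ) : ℝ) * b < (n : ℝ) - b := by linarith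
  have h2 : 0 ≤ Real.sqrt ((c + 1 : ℕ) : ℝ) * b := mul_nonneg hs hb
  have h3 : (Real.sqrt ((c + 1 : ℕ) : ℝ) * b) ^ 2 < ((n : ℝ) - b) ^ 2 :=
    pow_lt_pow_left₀ h1 h2 two_ne_zero
  rw [mul_pow, Real.sq_sqrt (Nat.cast_nonneg _)] at h3
  constructor
  · have h4 : ((c : ℤ) + 1) * (b : ℤ) ^ 2 < ((n : ℤ) - b) ^ 2 := by
      have : (((((c : ℤ) + 1) * (b : ℤ) ^ 2 : ℤ)) : ℝ) < ((((n : ℤ) - b) ^ 2 : ℤ) : ℝ) := by
        push_cast
        push_cast at h3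
        exact h3
      exact_mod_cast this
    omega
  · have h5 : (0 : ℝ) < n := by nlinarith
    exact_mod_cast h5

theorem count_pos2 (g n b : ℕ) (hg : 1 ≤ g) (h : (1 + Real.sqrt g) * b < n) :
    ∃ r : ℕ, 0 < r ∧ 2 * g ≤ r * n + 1 ∧
      ∑ j ∈ Finset.range (r * b), (2 * (r * n) + j * (2 * g - 2) + 2 * g + 1) <
        (r * n + 1 - g) ^ 2 := by
  obtain ⟨c, rfl⟩ : ∃ c, g = c + 1 := ⟨g - 1, by omega⟩
  obtain ⟨hD, hn⟩ := cnt2_disc c n b h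
  set r : ℕ := 2 * n * c + b * (c + 3) + 2 * (c + 1) with hr
  have hrn : 2 * (c + 1) ≤ r * n := by
    calc 2 * (c + 1) ≤ r := by omega
      _ = r * 1 := (mul_one r).symm
      _ ≤ r * n := Nat.mul_le_mul_left r hn
  refine ⟨r, by omega, by omega, ?_⟩
  obtain ⟨t, ht⟩ : ∃ t, r * n = c + t := ⟨r * n - c, by omega⟩
  have e1 : r * n + 1 - (c + 1) = t := by omega
  have e2 : ∀ j, 2 * (r * n) + j * (2 * (c + 1) - 2) + 2 * (c + 1) + 1 =
      2 * (r * n) + j * (2 * c) + (2 * c + 3) := by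
    intro j
    have : 2 * (c + 1) - 2 = 2 * c := by omega
    rw [this]
    ring
  rw [e1, Finset.sum_congr rfl fun j _ => e2 j]
  have e3 := cnt2_sum (r * n) c (r * b)
  set S : ℕ := ∑ j ∈ Finset.range (r * b), (2 * (r * n) + j * (2 * c) + (2 * c + 3)) with hS
  zify at e3 ht ⊢
  have hrz : (r : ℤ) = 2 * n * c + b * (c + 3) + 2 * (c + 1) := by rw [hr]; push_cast; ring
  have e4 : (t : ℤ) = r * n - c := by linarith
  have e5 : (t : ℤ) ^ 2 - S = (r : ℤ) ^ 2 * (((n : ℤ) - b) ^ 2 - ((c : ℤ) + 1) * b ^ 2) -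
      r * (2 * n * c + b * (c + 3)) + (c : ℤ) ^ 2 := by
    rw [e4]
    linear_combination -e3
  have e6 : (r : ℤ) ^ 2 * 1 ≤ (r : ℤ) ^ 2 * (((n : ℤ) - b) ^ 2 - ((c : ℤ) + 1) * b ^ 2) :=
    mul_le_mul_of_nonneg_left (by linarith) (sq_nonneg _)
  have e7 : (r : ℤ) ^ 2 - r * (2 * n * c + b * (c + 3)) = r * (2 * (c + 1)) := by
    have : (r : ℤ) - (2 * n * c + b * (c + 3)) = 2 * (c + 1) := by linarith
    rw [← this]; ring
  have e8 : (0 : ℤ) < r * (2 * (c + 1)) := by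
    have : (0 : ℤ) < r := by
      rw [hrz]; positivity
    positivity
  nlinarith [sq_nonneg (c : ℤ)]

end Pool.Agent.TH291.EX
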