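import Pool.Agent.TH549.CK.Defs2

set_option autoImplicit false

/-! Existence of sections on the square of every smooth pointed curve: definitions. -/

namespace Pool.Agent.TH291.EX

open TensorProduct Pool.Agent.TH549.CK

variable {K : Type} [Field K]

/-- the derivative of a Laurent series -/
noncomputable def dd (f : LaurentSeries K) : LaurentSeries K := LaurentSeries.hasseDeriv K 1 f

/-- Laurent series of order at least `m` -/
def Ge (K : Type) [Field K] (m : ℤ) : Submodule K (LaurentSeries K) where
  carrier := {v | ∀ k < m, v.coeff k = 0}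
  add_mem' := fun {x y} hx hy k hk => by
    rw [HahnSeries.coeff_add, hx k hk, hy k hk, add_zero]
  zero_mem' := fun k _ => rfl
  smul_mem' := fun c x hx k hk => by
    rw [HahnSeries.coeff_smul, hx k hk, smul_zero]

theorem mem_Ge {m : ℤ} {v : LaurentSeries K} : v ∈ Ge K m ↔ ∀ k < m, v.coeff k = 0 := Iff.rfl

/-- the Laurent series `η` with `res (η r) = 0` for all `r` in `R` -/
noncomputable def Perp (R : Subalgebra K (LaurentSeries K)) : Submodule K (LaurentSeries K) where
  carrier := {η | ∀ r ∈ R, (η * r).coeff (-1) = 0}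
  add_mem' := fun {x y} hx hy r hr => by
    rw [add_mul, HahnSeries.coeff_add, hx r hr, hy r hr, add_zero]
  zero_mem' := fun r _ => by rw [zero_mul]; rfl
  smul_mem' := fun c x hx r hr => by
    rw [← HahnSeries.C_mul_eq_smul, mul_assoc, HahnSeries.C_mul_eq_smul, HahnSeries.coeff_smul,
      hx r hr, smul_zero]

theorem mem_Perp {R : Subalgebra K (LaurentSeries K)} {η : LaurentSeries K} :
    η ∈ Perp R ↔ ∀ r ∈ R, (η * r).coeff (-1) = 0 := Iff.rfl

/-- functions on the square of the curve with poles of order at most `n` which vanish to order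
at least `j` along the diagonal -/
noncomputable def TT (R : Subalgebra K (LaurentSeries K)) (n j : ℕ) : Submodule K (R ⊗[K] R) where
  carrier := {G | G ∈ LinearMap.range (TensorProduct.map (Lp R n).subtype (Lp R n).subtype) ∧
    FV R j G}
  add_mem' := fun {x y} hx hy => ⟨add_mem hx.1 hy.1, fun i hi => by
    rw [map_add, hx.2 i hi, hy.2 i hi, add_zero]⟩
  zero_mem' := ⟨zero_mem _, fun i _ => map_zero _⟩
  smul_mem' := fun c x hx => ⟨Submodule.smul_mem _ c hx.1, fun i hi => by
    rw [map_smul, hx.2 i hi, smul_zero]⟩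

theorem mem_TT {R : Subalgebra K (LaurentSeries K)} {n j : ℕ} {G : R ⊗[K] R} :
    G ∈ TT R n j ↔ G ∈ LinearMap.range (TensorProduct.map (Lp R n).subtype (Lp R n).subtype) ∧
      FV R j G := Iff.rfl

end Pool.Agent.TH291.EX
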