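import Pool.Agent.TH291.EX.Defs
import Pool.Agent.TH549.CK.P24
import Pool.Agent.TH549.CK.P25
import Pool.Agent.TH549.CK.P26

/-! The different ideal of a differential and its codimension. -/

set_option autoImplicit false

namespace Pool.Agent.TH291.EX

open TensorProduct Pool.Agent.TH549.CK

variable {K : Type} [Field K]

namespace DF

theorem mul_mem_Perp {R : Subalgebra K (LaurentSeries K)} {η : LaurentSeries K} (hη : η ∈ Perp R)
    (a : R) : (a : LaurentSeries K) * η ∈ Perp R := by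
  intro r hr
  have h := hη (a * r) (mul_mem a.2 hr)
  rw [show (a : LaurentSeries K) * η * r = η * (a * r) by ring]
  exact h

theorem mem_Ge_iff {m : ℤ} {v : LaurentSeries K} : v ∈ Ge K m ↔ v = 0 ∨ m ≤ v.order := by
  rw [mem_Ge]
  constructor
  · intro h
    by_cases hv : v = 0
    · exact Or.inl hv
    · right
      by_contra hlt
      push Not at hlt
      exact (HahnSeries.coeff_order_eq_zero.not.2 hv) (h _ hlt)
  · rintro (h | h) k hk
    · rw [h]; rfl
    · exact HahnSeries.coeff_eq_zero_of_lt_order (lt_of_lt_of_le hk h)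

theorem ordH (R : Subalgebra K (LaurentSeries K)) :
    P25.Ord (K := K) (A := R) (fun x => (x : LaurentSeries K).order) (Lp R) :=
  { mul := fun x y hx hy => HahnSeries.order_mul (fun h0 => hx (Subtype.ext h0))
      (fun h0 => hy (Subtype.ext h0))
    mem := fun n x hx => by
      have hx' : (x : LaurentSeries K) ≠ 0 := fun h0 => hx (Subtype.ext h0)
      constructor
      · intro hm
        by_contra hlt
        exact HahnSeries.coeff_order_eq_zero.not.2 hx' (hm _ (not_le.1 hlt))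
      · intro hm k hk
        exact HahnSeries.coeff_eq_zero_of_lt_order (lt_of_lt_of_le hk hm) }

theorem exists_exact {R : Subalgebra K (LaurentSeries K)} {g : ℕ} (hR : IsSmoothCurve R g) {k : ℕ}
    (hk : 2 * g ≤ k) (hk1 : 1 ≤ k) :
    ∃ a : R, a ∈ Lp R k ∧ (a : LaurentSeries K).coeff (-(k : ℤ)) ≠ 0 := by
  by_contra hcon
  push Not at hcon
  have hle : Lp R k ≤ Lp R (k - 1) := by
    intro a ha j hj
    rcases (show j < -(k : ℤ) ∨ j = -(k : ℤ) by omega) with h | h
    · exact ha j h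
    · rw [h]; exact hcon a ha
  have h1 := hR.genus k (by omega)
  have h2 := hR.genus (k - 1) (by omega)
  have hfin := P26.Lp_finite hR (k - 1)
  have h3 := Submodule.finrank_mono hle
  omega

theorem mul_mem_Ge {a v : LaurentSeries K} {k m : ℤ} (ha : a ∈ Ge K k) (hv : v ∈ Ge K m) :
    a * v ∈ Ge K (k + m) := by
  rw [mem_Ge_iff] at ha hv ⊢
  by_cases ha0 : a = 0
  · left; rw [ha0, zero_mul]
  by_cases hv0 : v = 0
  · left; rw [hv0, mul_zero]
  right
  rw [HahnSeries.order_mul ha0 hv0]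
  have h1 := ha.resolve_left ha0
  have h2 := hv.resolve_left hv0
  omega

theorem reduce {R : Subalgebra K (LaurentSeries K)} {g : ℕ} (hR : IsSmoothCurve R g)
    {x : LaurentSeries K} {N : ℕ} (hxP : x ∈ Perp R) (hx0 : x ≠ 0)
    (hx : x.order = -((N : ℤ) + 1)) (n : ℕ) :
    ∀ η ∈ Perp R, η ∈ Ge K (-((N + 2 * g + 1 + n : ℕ) : ℤ)) →
      ∃ a : R, η - a * x ∈ Perp R ⊓ Ge K (-((N + 2 * g + 1 : ℕ) : ℤ)) := by
  induction n with
  | zero =>
    intro η hη h
    refine ⟨0, ?_⟩
    rw [ZeroMemClass.coe_zero, zero_mul, sub_zero]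
    exact ⟨hη, h⟩
  | succ n ih =>
    intro η hη h
    obtain ⟨a, ha, ha0⟩ := exists_exact hR (k := 2 * g + n + 1) (by omega) (by omega)
    have hane : (a : LaurentSeries K) ≠ 0 := by
      intro h0
      rw [h0] at ha0
      exact ha0 rfl
    have hao : (a : LaurentSeries K).order = -((2 * g + n + 1 : ℕ) : ℤ) := by
      apply le_antisymm (HahnSeries.order_le_of_coeff_ne_zero ha0)
      by_contra hlt
      exact HahnSeries.coeff_order_eq_zero.not.2 hane (ha _ (not_le.1 hlt))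
    have hax0 : (a : LaurentSeries K) * x ≠ 0 := mul_ne_zero hane hx0
    have hord : ((a : LaurentSeries K) * x).order = -((N + 2 * g + 1 + (n + 1) : ℕ) : ℤ) := by
      rw [HahnSeries.order_mul hane hx0, hao, hx]
      push_cast
      ring
    set M : ℤ := -((N + 2 * g + 1 + (n + 1) : ℕ) : ℤ) with hM
    have hc : ((a : LaurentSeries K) * x).coeff M ≠ 0 := by
      rw [← hord]
      exact HahnSeries.coeff_order_eq_zero.not.2 hax0
    let lam : K := η.coeff M / ((a : LaurentSeries K) * x).coeff M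
    have hη' : η - ((lam • a : R) : LaurentSeries K) * x ∈ Perp R :=
      sub_mem hη (mul_mem_Perp hxP _)
    have hge : η - ((lam • a : R) : LaurentSeries K) * x ∈
        Ge K (-((N + 2 * g + 1 + n : ℕ) : ℤ)) := by
      intro j hj
      rw [coe_smul', mul_assoc, HahnSeries.C_mul_eq_smul, HahnSeries.coeff_sub,
        HahnSeries.coeff_smul, smul_eq_mul]
      rcases (show j < M ∨ j = M by rw [hM]; push_cast at hj ⊢; omega) with h1 | h1
      · rw [h j h1, HahnSeries.coeff_eq_zero_of_lt_order (by rw [hord]; exact h1), mul_zero,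
          sub_zero]
      · rw [h1, div_mul_cancel₀ _ hc, sub_self]
    obtain ⟨b, hb⟩ := ih _ hη' hge
    refine ⟨lam • a + b, ?_⟩
    rw [Subalgebra.coe_add, add_mul, ← sub_sub]
    exact hb

/-- two maps into a small space -/
theorem rel_aux {A M : Type} [CommRing A] [Algebra K A] [AddCommGroup M] [Module K M]
    (L : Submodule K A) (V : Submodule K M) (hL : Module.Finite K L) (hV : Module.Finite K V)
    (f₁ f₂ : A →ₗ[K] M) (h₁ : ∀ a ∈ L, f₁ a ∈ V) (h₂ : ∀ a ∈ L, f₂ a ∈ V)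
    (hlt : Module.finrank K V < Module.finrank K L + Module.finrank K L) :
    ∃ a ∈ L, ∃ b ∈ L, ¬ (a = 0 ∧ b = 0) ∧ f₁ a + f₂ b = 0 := by
  let φ : (L × L) →ₗ[K] V :=
    { toFun := fun v => ⟨f₁ v.1 + f₂ v.2, add_mem (h₁ _ v.1.2) (h₂ _ v.2.2)⟩
      map_add' := fun v w => by
        apply Subtype.ext
        change f₁ ((v.1 : A) + w.1) + f₂ ((v.2 : A) + w.2) =
          (f₁ v.1 + f₂ v.2) + (f₁ w.1 + f₂ w.2)
        rw [map_add, map_add]
        abel
      map_smul' := fun c v => by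
        apply Subtype.ext
        change f₁ (c • (v.1 : A)) + f₂ (c • (v.2 : A)) = c • (f₁ v.1 + f₂ v.2)
        rw [map_smul, map_smul, smul_add] }
  have h1 : LinearMap.ker φ ≠ ⊥ := by
    apply LinearMap.ker_ne_bot_of_finrank_lt
    rw [Module.finrank_prod]
    exact hlt
  obtain ⟨v, hv, hv0⟩ := Submodule.exists_mem_ne_zero_of_ne_bot h1
  refine ⟨v.1, v.1.2, v.2, v.2.2, ?_, congrArg Subtype.val (LinearMap.mem_ker.1 hv)⟩
  rintro ⟨ha, hb⟩
  exact hv0 (Prod.ext (Subtype.ext ha) (Subtype.ext hb))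

/-- the codimension of an ideal from below -/
theorem cod_aux {A M : Type} [CommRing A] [Algebra K A] [AddCommGroup M] [Module K M]
    (L : Submodule K A) (I : Ideal A) (V : Submodule K M) (hL : Module.Finite K L)
    (hI : Module.Finite K (A ⧸ I)) (hV : Module.Finite K V) (f : A →ₗ[K] M)
    (hf : ∀ a ∈ L, a ∈ I → f a ∈ V) (hinj : ∀ a, f a = 0 → a = 0) :
    Module.finrank K L ≤ Module.finrank K (A ⧸ I) + Module.finrank K V := by
  let π : L →ₗ[K] (A ⧸ I) := (Ideal.Quotient.mkₐ K I).toLinearMap ∘ₗ L.subtype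
  have h1 := LinearMap.finrank_range_add_finrank_ker π
  have h2 : Module.finrank K (LinearMap.range π) ≤ Module.finrank K (A ⧸ I) :=
    Submodule.finrank_le _
  have hmem : ∀ v : LinearMap.ker π, f ((v : L) : A) ∈ V := fun v =>
    hf _ v.1.2 (Ideal.Quotient.eq_zero_iff_mem.1 (LinearMap.mem_ker.1 v.2))
  let ψ : LinearMap.ker π →ₗ[K] V :=
    { toFun := fun v => ⟨_, hmem v⟩
      map_add' := fun v w => by
        apply Subtype.ext
        exact map_add f _ _
      map_smul' := fun a v => by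
        apply Subtype.ext
        exact map_smul f _ _ }
  have hψ : Function.Injective ψ := by
    rw [injective_iff_map_eq_zero]
    intro v hv
    apply Subtype.ext
    apply Subtype.ext
    exact hinj _ (congrArg Subtype.val hv)
  have h3 := LinearMap.finrank_le_finrank_of_injective hψ
  omega

/-- multiplication by a Laurent series -/
noncomputable def ml (R : Subalgebra K (LaurentSeries K)) (y : LaurentSeries K) :
    R →ₗ[K] LaurentSeries K :=
  { toFun := fun a => a * y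
    map_add' := fun a b => by rw [Subalgebra.coe_add, add_mul]
    map_smul' := fun c a => by
      rw [coe_smul', RingHom.id_apply, ← HahnSeries.C_mul_eq_smul, mul_assoc] }

theorem ml_apply (R : Subalgebra K (LaurentSeries K)) (y : LaurentSeries K) (a : R) :
    ml R y a = a * y := rfl

/-- one relation -/
theorem relation {R : Subalgebra K (LaurentSeries K)} {g : ℕ} (hR : IsSmoothCurve R g)
    (hP : ∀ m : ℕ, 1 ≤ m → Module.Finite K ↥(Perp R ⊓ Ge K (-(m : ℤ))) ∧
      Module.finrank K ↥(Perp R ⊓ Ge K (-(m : ℤ))) + 1 ≤ m + g)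
    {x : LaurentSeries K} {N : ℕ} (hxP : x ∈ Perp R) (hx0 : x ≠ 0)
    (hx : x.order = -((N : ℤ) + 1)) (η : LaurentSeries K) (hη : η ∈ Perp R) :
    ∃ c : R, c ≠ 0 ∧ ∃ r : R, (c : LaurentSeries K) * η = r * x := by
  obtain ⟨m, hm⟩ : ∃ m : ℕ, η ∈ Ge K (-(m : ℤ)) := by
    refine ⟨(-η.order).toNat, mem_Ge_iff.2 (Or.inr ?_)⟩
    have := Int.self_le_toNat (-η.order)
    omega
  have hxG : x ∈ Ge K (-((N + 1 : ℕ) : ℤ)) := by
    rw [mem_Ge_iff, hx]
    right
    push_cast
    omega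
  let k : ℕ := m + N + 3 * g
  have hkd : k = m + N + 3 * g := rfl
  clear_value k
  obtain ⟨hf, hr⟩ := hP (k + m + N + 1) (by omega)
  have hLf : Module.Finite K (Lp R k) := P26.Lp_finite hR k
  have hLr := hR.genus k (by omega)
  have hgeL : ∀ a ∈ Lp R k, ((a : R) : LaurentSeries K) ∈ Ge K (-(k : ℤ)) := fun a ha => ha
  have hmono : ∀ {p q : ℤ} {v : LaurentSeries K}, p ≤ q → v ∈ Ge K q → v ∈ Ge K p :=
    fun {p q v} hpq hv j hj => hv j (lt_of_lt_of_le hj hpq)
  obtain ⟨a, ha, b, hb, hab, h2⟩ := rel_aux (Lp R k)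
    (Perp R ⊓ Ge K (-((k + m + N + 1 : ℕ) : ℤ))) hLf hf (ml R η) (ml R x)
    (fun a ha => ⟨mul_mem_Perp hη a, hmono (by push_cast; omega) (mul_mem_Ge (hgeL a ha) hm)⟩)
    (fun a ha => ⟨mul_mem_Perp hxP a, hmono (by push_cast; omega) (mul_mem_Ge (hgeL a ha) hxG)⟩)
    (by rw [hLr]; omega)
  rw [ml_apply, ml_apply] at h2
  refine ⟨a, ?_, -b, ?_⟩
  · intro h0
    rw [h0, ZeroMemClass.coe_zero, zero_mul, zero_add] at h2
    have h3 := (mul_eq_zero.1 h2).resolve_right hx0
    exact hab ⟨h0, Subtype.ext h3⟩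
  · rw [eq_neg_of_add_eq_zero_left h2]
    rw [NegMemClass.coe_neg, neg_mul]

theorem common {R : Subalgebra K (LaurentSeries K)} {x : LaurentSeries K}
    (S : Finset (LaurentSeries K))
    (hS : ∀ η ∈ S, ∃ c : R, c ≠ 0 ∧ ∃ r : R, (c : LaurentSeries K) * η = r * x) :
    ∃ c : R, c ≠ 0 ∧ ∀ η ∈ S, ∃ r : R, (c : LaurentSeries K) * η = r * x := by
  classical
  induction S using Finset.induction_on with
  | empty => exact ⟨1, one_ne_zero, fun η h => absurd h (Finset.notMem_empty _)⟩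
  | insert a s ha ih =>
    obtain ⟨c, hc, h⟩ := ih fun η hη => hS η (Finset.mem_insert_of_mem hη)
    obtain ⟨c', hc', r', h'⟩ := hS a (Finset.mem_insert_self _ _)
    refine ⟨c * c', mul_ne_zero hc hc', fun η hη => ?_⟩
    rcases Finset.mem_insert.1 hη with rfl | hη
    · exact ⟨c * r', by rw [MulMemClass.coe_mul, MulMemClass.coe_mul, mul_assoc, h', mul_assoc]⟩
    · obtain ⟨r, hr⟩ := h η hη
      exact ⟨c' * r, by
        rw [MulMemClass.coe_mul, MulMemClass.coe_mul, mul_comm (c : LaurentSeries K), mul_assoc, hr,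
          mul_assoc]⟩

theorem exists_c {R : Subalgebra K (LaurentSeries K)} {g : ℕ} (hR : IsSmoothCurve R g)
    (hP : ∀ m : ℕ, 1 ≤ m → Module.Finite K ↥(Perp R ⊓ Ge K (-(m : ℤ))) ∧
      Module.finrank K ↥(Perp R ⊓ Ge K (-(m : ℤ))) + 1 ≤ m + g)
    {x : LaurentSeries K} {N : ℕ} (hxP : x ∈ Perp R) (hx0 : x ≠ 0)
    (hx : x.order = -((N : ℤ) + 1)) :
    ∃ c : R, c ≠ 0 ∧ ∀ η ∈ Perp R, ∃ r : R, (c : LaurentSeries K) * η = r * x := by
  obtain ⟨hf, -⟩ := hP (N + 2 * g + 1) (by omega)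
  obtain ⟨S, hS⟩ := (Submodule.fg_iff_finiteDimensional _).2 hf
  have hSP : ∀ η ∈ S, η ∈ Perp R := fun η hη => by
    have h1 : η ∈ Submodule.span K (S : Set (LaurentSeries K)) := Submodule.subset_span hη
    rw [hS] at h1
    exact h1.1
  obtain ⟨c, hc, h⟩ := common (R := R) (x := x) S fun η hη =>
    relation hR hP hxP hx0 hx η (hSP η hη)
  refine ⟨c, hc, fun η hη => ?_⟩
  have hspan : ∀ v ∈ Submodule.span K (S : Set (LaurentSeries K)),
      ∃ r : R, (c : LaurentSeries K) * v = r * x := by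
    intro v hv
    induction hv using Submodule.span_induction with
    | mem v hv => exact h v hv
    | zero => exact ⟨0, by rw [mul_zero, ZeroMemClass.coe_zero, zero_mul]⟩
    | add u v _ _ hu hv =>
      obtain ⟨r, hr⟩ := hu
      obtain ⟨r', hr'⟩ := hv
      exact ⟨r + r', by rw [mul_add, hr, hr', Subalgebra.coe_add, add_mul]⟩
    | smul a v _ hv =>
      obtain ⟨r, hr⟩ := hv
      refine ⟨a • r, ?_⟩
      rw [coe_smul', ← HahnSeries.C_mul_eq_smul, mul_left_comm, hr, mul_assoc]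
  obtain ⟨n, hn⟩ : ∃ n : ℕ, η ∈ Ge K (-((N + 2 * g + 1 + n : ℕ) : ℤ)) := by
    refine ⟨(-η.order).toNat, mem_Ge_iff.2 (Or.inr ?_)⟩
    have := Int.self_le_toNat (-η.order)
    push_cast
    omega
  obtain ⟨a, ha⟩ := reduce hR hxP hx0 hx n η hη hn
  rw [← hS] at ha
  obtain ⟨r, hr⟩ := hspan _ ha
  refine ⟨r + c * a, ?_⟩
  rw [Subalgebra.coe_add, MulMemClass.coe_mul, add_mul, ← hr]
  ring

end DF

theorem exists_diff [IsAlgClosed K] [CharZero K] {R : Subalgebra K (LaurentSeries K)} {g : ℕ}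
    (hR : IsSmoothCurve R g)
    (hP : ∀ m : ℕ, 1 ≤ m → Module.Finite K ↥(Perp R ⊓ Ge K (-(m : ℤ))) ∧
      Module.finrank K ↥(Perp R ⊓ Ge K (-(m : ℤ))) + 1 ≤ m + g)
    {x : LaurentSeries K} {N : ℕ} (hxP : x ∈ Perp R) (hx0 : x ≠ 0)
    (hx : x.order = -((N : ℤ) + 1)) :
    ∃ D : Ideal R, D ≠ ⊥ ∧ Module.Finite K (R ⧸ D) ∧ Module.finrank K (R ⧸ D) + 1 ≤ N + 2 * g ∧
      ∀ a ∈ D, ∀ η ∈ Perp R, ∃ r : R, (a : LaurentSeries K) * η = r * x := by
  have hD := (dedekind_of_smooth hR).1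
  obtain ⟨c, hc, hcP⟩ := DF.exists_c hR hP hxP hx0 hx
  have hc' : (c : LaurentSeries K) ≠ 0 := fun h0 => hc (Subtype.ext h0)
  -- the ideal `I`
  let I : Ideal R :=
    { carrier := {s | ∃ p ∈ Perp R, (s : LaurentSeries K) * x = c * p}
      add_mem' := by
        rintro s t ⟨p, hp, h⟩ ⟨q, hq, h'⟩
        exact ⟨p + q, add_mem hp hq, by rw [Subalgebra.coe_add, add_mul, h, h', mul_add]⟩
      zero_mem' := ⟨0, zero_mem _, by rw [ZeroMemClass.coe_zero, zero_mul, mul_zero]⟩
      smul_mem' := by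
        rintro r s ⟨p, hp, h⟩
        refine ⟨(r : LaurentSeries K) * p, DF.mul_mem_Perp hp r, ?_⟩
        rw [smul_eq_mul, MulMemClass.coe_mul, mul_assoc, h]
        ring }
  have hI : ∀ s : R, s ∈ I ↔ ∃ p ∈ Perp R, (s : LaurentSeries K) * x = c * p := fun s => Iff.rfl
  have hcI : c ∈ I := (hI c).2 ⟨x, hxP, rfl⟩
  obtain ⟨J, hJ⟩ := Ideal.dvd_span_singleton.2 hcI
  have hsp : Ideal.span {c} ≠ ⊥ := by
    rw [Ne, Ideal.span_singleton_eq_bot]
    exact hc
  have hI0 : I ≠ ⊥ := by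
    intro h0
    rw [h0, Ideal.mem_bot] at hcI
    exact hc hcI
  have hJ0 : J ≠ ⊥ := by
    rintro rfl
    apply hsp
    rw [hJ]
    exact mul_zero I
  -- the pole order of `c`
  obtain ⟨e, he⟩ := P25.exists_deg (DF.ordH R) hR.genus hc
  obtain ⟨hfin, hle⟩ := P25.quot_fin (DF.ordH R) hR.genus hc he
  have hIfin : Module.Finite K (R ⧸ I) := P25.fin_of_le (hJ ▸ Ideal.mul_le_left) hfin
  have hJfin : Module.Finite K (R ⧸ J) := P25.fin_of_le (hJ ▸ Ideal.mul_le_right) hfin
  have hadd := (finrank_quot_mul (K := K) (R := R) hI0 hJ0).2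
  rw [← hJ] at hadd
  -- the codimension of `I`
  have hcod : e + 1 ≤ Module.finrank K (R ⧸ I) + N + 2 * g := by
    let k : ℕ := e + 2 * g
    have hk : k = e + 2 * g := rfl
    clear_value k
    have hLf : Module.Finite K (Lp R k) := P26.Lp_finite hR k
    have hLr := hR.genus k (by omega)
    obtain ⟨hf, hr⟩ := hP (k - e + N + 1) (by omega)
    have h3 := DF.cod_aux (Lp R k) I (Perp R ⊓ Ge K (-((k - e + N + 1 : ℕ) : ℤ))) hLf hIfin hf
      (DF.ml R (x * (c : LaurentSeries K)⁻¹)) (by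
        intro v hvL h3
        rw [DF.ml_apply]
        obtain ⟨p, hp, hvp⟩ := h3
        have h4 : (v : LaurentSeries K) * (x * (c : LaurentSeries K)⁻¹) = p := by
          rw [← mul_assoc, hvp, mul_comm (c : LaurentSeries K) p, mul_assoc, mul_inv_cancel₀ hc',
            mul_one]
        rw [h4]
        refine ⟨hp, ?_⟩
        rw [SetLike.mem_coe, DF.mem_Ge_iff]
        by_cases hp0 : p = 0
        · exact Or.inl hp0
        right
        have hv0 : (v : LaurentSeries K) ≠ 0 := by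
          intro h0
          rw [h0, zero_mul] at hvp
          exact mul_ne_zero hc' hp0 hvp.symm
        have h5 := congrArg HahnSeries.order hvp
        rw [HahnSeries.order_mul hv0 hx0, HahnSeries.order_mul hc' hp0, hx] at h5
        have h6 : -(k : ℤ) ≤ (v : LaurentSeries K).order :=
          ((DF.ordH R).mem k _ (fun h0 => hv0 (congrArg Subtype.val h0))).1 hvL
        have h7 : (c : LaurentSeries K).order = -(e : ℤ) := he
        rw [h7] at h5
        push_cast [show e ≤ k by omega]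
        omega)
      (fun a ha => by
        rw [DF.ml_apply] at ha
        exact Subtype.ext ((mul_eq_zero.1 ha).resolve_right (mul_ne_zero hx0 (inv_ne_zero hc'))))
    omega
  refine ⟨J, hJ0, hJfin, by omega, ?_⟩
  intro a ha η hη
  obtain ⟨s, hs⟩ := hcP η hη
  have hsI : s ∈ I := (hI s).2 ⟨η, hη, hs.symm⟩
  have has : s * a ∈ Ideal.span {c} := by
    rw [hJ]
    exact Ideal.mul_mem_mul hsI ha
  obtain ⟨t, ht⟩ := Ideal.mem_span_singleton.1 has
  refine ⟨t, ?_⟩
  have ht' : (s : LaurentSeries K) * a = c * t := congrArg Subtype.val ht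
  apply mul_left_cancel₀ hc'
  calc (c : LaurentSeries K) * (a * η) = a * (c * η) := by ring
    _ = a * (s * x) := by rw [hs]
    _ = (s * a) * x := by ring
    _ = c * t * x := by rw [ht']
    _ = c * (t * x) := by ring

end Pool.Agent.TH291.EX
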