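import Pool.Agent.TH291.EX.Defs
import Pool.Agent.TH549.CK.P26

set_option autoImplicit false

/-! EX-LOWER (helper47): dimension of `TT` from the ranks of `s_j`. -/

namespace Pool.Agent.TH291.EX

open TensorProduct Pool.Agent.TH549.CK

variable {K : Type} [Field K]

theorem lower_TT_zero (R : Subalgebra K (LaurentSeries K)) (n : ℕ) :
    TT R n 0 = LinearMap.range (TensorProduct.map (Lp R n).subtype (Lp R n).subtype) := by
  ext G
  rw [mem_TT]
  exact ⟨fun h => h.1, fun h => ⟨h, fun i hi => absurd hi (Nat.not_lt_zero i)⟩⟩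

theorem lower_TT_succ (R : Subalgebra K (LaurentSeries K)) (n b : ℕ) :
    TT R n (b + 1) = TT R n b ⊓ LinearMap.ker (sj R b) := by
  ext G
  rw [Submodule.mem_inf, mem_TT, mem_TT, LinearMap.mem_ker]
  constructor
  · rintro ⟨h1, h2⟩
    exact ⟨⟨h1, fun i hi => h2 i (by omega)⟩, h2 b (by omega)⟩
  · rintro ⟨⟨h1, h2⟩, h3⟩
    refine ⟨h1, fun i hi => ?_⟩
    rcases Nat.lt_succ_iff_lt_or_eq.1 hi with h | h
    · exact h2 i h
    · rw [h]; exact h3

theorem lower_inf {V : Type} [AddCommGroup V] [Module K V] (p q : Submodule K V)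
    [Module.Finite K p] : Module.Finite K (p ⊓ q : Submodule K V) :=
  Submodule.finiteDimensional_inf_left p q

/-- rank-nullity for a submodule and its image -/
theorem lower_rank {V W : Type} [AddCommGroup V] [Module K V] [AddCommGroup W] [Module K W]
    (f : V →ₗ[K] W) (p : Submodule K V) [Module.Finite K p] :
    Module.finrank K (p.map f) + Module.finrank K (p ⊓ LinearMap.ker f : Submodule K V) =
      Module.finrank K p := by
  have h := (f.domRestrict p).finrank_range_add_finrank_ker
  have e1 : LinearMap.range (f.domRestrict p) = p.map f := by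
    rw [LinearMap.domRestrict, LinearMap.range_comp, Submodule.range_subtype]
  have e2 : Module.finrank K (LinearMap.ker (f.domRestrict p)) =
      Module.finrank K (p ⊓ LinearMap.ker f : Submodule K V) := by
    have e3 : LinearMap.ker (f.domRestrict p) = (LinearMap.ker f).comap p.subtype := by
      rw [LinearMap.domRestrict, LinearMap.ker_comp]
    have e4 : (p ⊓ LinearMap.ker f : Submodule K V) =
        ((LinearMap.ker f).comap p.subtype).map p.subtype := by
      rw [Submodule.map_comap_subtype]
    rw [e3, e4]
    exact (LinearEquiv.finrank_eq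
      (Submodule.equivMapOfInjective p.subtype p.subtype_injective _))
  rw [e1, e2] at h
  exact h

theorem lower_range {V : Type} [AddCommGroup V] [Module K V] (p : Submodule K V)
    [Module.Finite K p] :
    Module.Finite K (LinearMap.range (TensorProduct.map p.subtype p.subtype)) ∧
      Module.finrank K (LinearMap.range (TensorProduct.map p.subtype p.subtype)) =
        Module.finrank K p ^ 2 := by
  have hinj : Function.Injective (TensorProduct.map p.subtype p.subtype) :=
    TensorProduct.map_injective_of_flat_flat' _ _ p.subtype_injective p.subtype_injective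
  refine ⟨inferInstance, ?_⟩
  rw [LinearMap.finrank_range_of_inj hinj, Module.finrank_tensorProduct, sq]

theorem finrank_TT_lower [IsAlgClosed K] [CharZero K] {R : Subalgebra K (LaurentSeries K)} {g : ℕ}
    (hR : IsSmoothCurve R g) {n : ℕ} (hn : 2 * g ≤ n + 1) {bd : ℕ → ℕ}
    (hbd : ∀ j, Module.Finite K ↥((TT R n j).map (sj R j)) ∧
      Module.finrank K ↥((TT R n j).map (sj R j)) ≤ bd j) (b : ℕ) :
    Module.Finite K (TT R n b) ∧
      (n + 1 - g) ^ 2 ≤ Module.finrank K (TT R n b) + ∑ j ∈ Finset.range b, bd j := by
  induction b with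
  | zero =>
    have hfin : Module.Finite K (Lp R n) := P26.Lp_finite hR n
    obtain ⟨h1, h2⟩ := lower_range (K := K) (Lp R n)
    rw [lower_TT_zero]
    refine ⟨h1, ?_⟩
    rw [h2, hR.genus n hn, Finset.sum_range_zero, add_zero]
  | succ b ih =>
    obtain ⟨h1, h2⟩ := ih
    have h3 := lower_rank (V := R ⊗[K] R) (W := LaurentSeries K) (sj R b) (TT R n b)
    rw [← lower_TT_succ] at h3
    refine ⟨?_, ?_⟩
    · rw [lower_TT_succ]
      exact lower_inf (V := R ⊗[K] R) (TT R n b) (LinearMap.ker (sj R b))
    · rw [Finset.sum_range_succ]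
      have h4 := (hbd b).2
      omega

end Pool.Agent.TH291.EX
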