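import Pool.Agent.TH291.EX.Defs
import Pool.Agent.TH549.CK.P26

set_option autoImplicit false

/-! EX-MULT (job 5573, helper283): dimension bound from a multiplier. -/

namespace Pool.Agent.TH291.EX

open TensorProduct Pool.Agent.TH549.CK

variable {K : Type} [Field K]

namespace Mult

theorem fin_inj {k A W : Type} [Field k] [CommRing A] [Algebra k A] {L : Submodule k A}
    (hL : Module.Finite k L) [AddCommGroup W] [Module k W] (φ : W →ₗ[k] L)
    (hφ : Function.Injective φ) : Module.Finite k W ∧ Module.finrank k W ≤ Module.finrank k L :=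
  ⟨Module.Finite.of_injective φ hφ, LinearMap.finrank_le_finrank_of_injective hφ⟩

/-- the coefficients at `0, -1, …, -B` -/
noncomputable def cf (R : Subalgebra K (LaurentSeries K)) (B : ℕ) :
    Lp R B →ₗ[K] (Fin (B + 1) → K) where
  toFun f := fun i => ((f : R) : LaurentSeries K).coeff (-(i.val : ℤ))
  map_add' x y := by
    funext i
    show (((x : R) : LaurentSeries K) + ((y : R) : LaurentSeries K)).coeff _ = _
    rw [HahnSeries.coeff_add]
    rfl
  map_smul' c x := by
    funext i
    show (((c • (x : R) : R)) : LaurentSeries K).coeff _ = c • ((x : R) : LaurentSeries K).coeff _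
    rw [coe_smul', HahnSeries.C_mul_eq_smul, HahnSeries.coeff_smul]

theorem cf_inj [IsAlgClosed K] {R : Subalgebra K (LaurentSeries K)} {g : ℕ}
    (hR : IsSmoothCurve R g) (B : ℕ) : Function.Injective (cf R B) := by
  rw [injective_iff_map_eq_zero]
  intro f hf
  have h1 : ∀ k : ℤ, k ≤ 0 → ((f : R) : LaurentSeries K).coeff k = 0 := by
    intro k hk
    by_cases hkB : k < -(B : ℤ)
    · exact f.2 k hkB
    · push Not at hkB
      have h2 := congrFun hf (⟨(-k).toNat, by omega⟩ : Fin (B + 1))
      have h3 : (-(((-k).toNat : ℕ) : ℤ)) = k := by omega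
      have h4 : ((f : R) : LaurentSeries K).coeff (-(((-k).toNat : ℕ) : ℤ)) = 0 := h2
      rwa [h3] at h4
  have h5 : (f : R) ∈ Lp R 0 := by
    intro k hk
    exact h1 k (by simp at hk; omega)
  obtain ⟨c, hc⟩ := (P26.Lp_zero hR (f : R)).1 h5
  have h6 := h1 0 le_rfl
  have e : ((algebraMap K R c : R) : LaurentSeries K) = HahnSeries.C c := by
    have : ((algebraMap K R c : R) : LaurentSeries K) = algebraMap K (LaurentSeries K) c := rfl
    rw [this, LaurentSeries.algebraMap_apply]
  rw [hc, e, HahnSeries.C_apply, HahnSeries.coeff_single_same] at h6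
  apply Subtype.ext
  show (f : R) = 0
  rw [hc, h6, map_zero]

theorem finrank_Lp_le [IsAlgClosed K] {R : Subalgebra K (LaurentSeries K)} {g : ℕ}
    (hR : IsSmoothCurve R g) (B : ℕ) : Module.finrank K (Lp R B) ≤ B + 1 := by
  have h := LinearMap.finrank_le_finrank_of_injective (cf_inj hR B)
  simpa using h

theorem order_ge {m : ℤ} {h : LaurentSeries K} (hm : h ∈ Ge K m) (h0 : h ≠ 0) : m ≤ h.order := by
  by_contra hlt
  push Not at hlt
  exact (HahnSeries.coeff_order_eq_zero.not.2 h0) (hm _ hlt)

end Mult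

theorem finrank_le_of_mult [IsAlgClosed K] [CharZero K] {R : Subalgebra K (LaurentSeries K)} {g : ℕ}
    (hR : IsSmoothCurve R g) {m e c B : ℕ} {a : R} (ha0 : a ≠ 0) (ha : a ∈ Lp R e)
    {y : LaurentSeries K} (hy0 : y ≠ 0) (hy : y.order = -(c : ℤ)) {W : Submodule K (LaurentSeries K)}
    (hW : W ≤ Ge K (-(m : ℤ))) (hWr : ∀ h ∈ W, ∃ r : R, (a : LaurentSeries K) * h = r * y)
    (hB : m + e ≤ c + B) : Module.Finite K W ∧ Module.finrank K W ≤ B + 1 := by
  have ha0' : (a : LaurentSeries K) ≠ 0 := fun h => ha0 (Subtype.ext h)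
  choose r hr using hWr
  have hmem : ∀ (h : LaurentSeries K) (hh : h ∈ W), r h hh ∈ Lp R B := by
    intro h hh
    rw [P26.mem_Lp_iff]
    by_cases hr0 : r h hh = 0
    · left; exact hr0
    · right
      have hr0' : ((r h hh : R) : LaurentSeries K) ≠ 0 := fun h' => hr0 (Subtype.ext h')
      have h1 := hr h hh
      have hh0 : h ≠ 0 := by
        intro h'
        have h6 : (a : LaurentSeries K) * h = 0 := by rw [h', mul_zero]
        exact mul_ne_zero hr0' hy0 (h1.symm.trans h6)
      have h2 := congrArg HahnSeries.order h1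
      rw [HahnSeries.order_mul ha0' hh0, HahnSeries.order_mul hr0' hy0, hy] at h2
      have h3 := Mult.order_ge (hW hh) hh0
      have h4 : -(e : ℤ) ≤ (a : LaurentSeries K).order := by
        rcases P26.mem_Lp_iff.1 ha with h5 | h5
        · exact absurd h5 ha0
        · exact h5
      omega
  have huniq : ∀ x x' : R, (x : LaurentSeries K) * y = x' * y → x = x' := by
    intro x x' h
    exact Subtype.ext (mul_right_cancel₀ hy0 h)
  let φ : W →ₗ[K] Lp R B :=
    { toFun := fun h => ⟨r h.1 h.2, hmem h.1 h.2⟩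
      map_add' := fun x x' => by
        apply Subtype.ext
        apply huniq
        show ((r (x.1 + x'.1) _ : R) : LaurentSeries K) * y
          = (((r x.1 x.2 : R) : LaurentSeries K) + ((r x'.1 x'.2 : R) : LaurentSeries K)) * y
        rw [← hr, add_mul, ← hr, ← hr, mul_add]
      map_smul' := fun k x => by
        apply Subtype.ext
        apply huniq
        show ((r (k • x.1) _ : R) : LaurentSeries K) * y
          = (((k • r x.1 x.2 : R)) : LaurentSeries K) * y
        rw [← hr, coe_smul', mul_assoc, ← hr, ← HahnSeries.C_mul_eq_smul]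
        ring }
  have hφ : Function.Injective φ := by
    rw [injective_iff_map_eq_zero]
    intro x hx
    have h1 : r x.1 x.2 = 0 := congrArg Subtype.val hx
    have h2 := hr x.1 x.2
    rw [h1] at h2
    have h3 : ((0 : R) : LaurentSeries K) = 0 := rfl
    rw [h3, zero_mul] at h2
    rcases mul_eq_zero.1 h2 with h4 | h4
    · exact absurd h4 ha0'
    · exact Subtype.ext h4
  obtain ⟨h1, h2⟩ := Mult.fin_inj (P26.Lp_finite hR B) φ hφ
  exact ⟨h1, h2.trans (Mult.finrank_Lp_le hR B)⟩

end Pool.Agent.TH291.EX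

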