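import Pool.Agent.TH291.EX.Defs

set_option autoImplicit false

/-! EX-PERP: dimension of the space of the regular differentials with bounded pole. -/

namespace Pool.Agent.TH291.EX

open TensorProduct Pool.Agent.TH549.CK

variable {K : Type} [Field K]

theorem px_finite_gen {k A : Type} [Field k] [CommRing A] [Algebra k A] (V : Submodule k A)
    (h : 0 < Module.finrank k V) : Module.Finite k V :=
  Module.finite_of_finrank_pos h

theorem px_finite_le {k A : Type} [Field k] [CommRing A] [Algebra k A] {V W : Submodule k A}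
    (hW : Module.Finite k W) (h : V ≤ W) : Module.Finite k V :=
  Submodule.finiteDimensional_of_le h

theorem px_Lp_finite {R : Subalgebra K (LaurentSeries K)} {g : ℕ} (h : IsSmoothCurve R g) (n : ℕ) :
    Module.Finite K (Lp R n) := by
  have h1 := h.genus (n + 2 * g) (by omega)
  have h2 : Module.Finite K (Lp R (n + 2 * g)) := px_finite_gen (Lp R (n + 2 * g)) (by omega)
  refine px_finite_le h2 ?_
  intro f hf k hk
  exact hf k (by push_cast at hk ⊢; omega)

theorem px_coe_algebraMap (R : Subalgebra K (LaurentSeries K)) (c : K) :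
    ((algebraMap K R c : R) : LaurentSeries K) = HahnSeries.C c := by
  have : ((algebraMap K R c : R) : LaurentSeries K) = algebraMap K (LaurentSeries K) c := rfl
  rw [this, LaurentSeries.algebraMap_apply]

theorem px_coeff_mul {f h : LaurentSeries K} (hf : ∀ k < 0, f.coeff k = 0)
    (hh : ∀ k < 0, h.coeff k = 0) : ∀ k < 0, (f * h).coeff k = 0 := by
  intro k hk
  by_cases hf0 : f = 0
  · rw [hf0, zero_mul]; rfl
  by_cases hh0 : h = 0
  · rw [hh0, mul_zero]; rfl
  have h1 : 0 ≤ f.order := by
    by_contra hlt
    push Not at hlt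
    exact (HahnSeries.coeff_order_eq_zero.not.2 hf0) (hf _ hlt)
  have h2 : 0 ≤ h.order := by
    by_contra hlt
    push Not at hlt
    exact (HahnSeries.coeff_order_eq_zero.not.2 hh0) (hh _ hlt)
  refine HahnSeries.coeff_eq_zero_of_lt_order ?_
  rw [HahnSeries.order_mul hf0 hh0]
  omega

/-- the ring of functions without pole -/
def px_S0 (R : Subalgebra K (LaurentSeries K)) : Subalgebra K R where
  carrier := {f | f ∈ Lp R 0}
  mul_mem' := fun {x y} hx hy => by
    intro k hk
    exact px_coeff_mul (fun k hk => hx k (by simpa using hk)) (fun k hk => hy k (by simpa using hk))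
      k (by simpa using hk)
  add_mem' := fun {x y} hx hy => (Lp R 0).add_mem hx hy
  algebraMap_mem' := fun c => by
    intro k hk
    rw [px_coe_algebraMap, HahnSeries.C_apply, HahnSeries.coeff_single_of_ne (by
      intro h0; subst h0; simp at hk)]

/-- there are no nonconstant functions without pole -/
theorem px_order_le [IsAlgClosed K] {R : Subalgebra K (LaurentSeries K)} {g : ℕ}
    (h : IsSmoothCurve R g) {f : LaurentSeries K} (hf : f ∈ R) : f.order ≤ 0 := by
  by_contra hlt
  push Not at hlt
  have hfin : Module.Finite K (px_S0 R) := by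
    have h1 := px_Lp_finite h 0
    have h2 : Subalgebra.toSubmodule (px_S0 R) = Lp R 0 := by
      ext x; rfl
    have h3 : Module.Finite K (Subalgebra.toSubmodule (px_S0 R)) := by
      rw [h2]; exact h1
    exact h3
  have hint : Algebra.IsIntegral K (px_S0 R) := Algebra.IsIntegral.of_finite K (px_S0 R)
  have hmem : (⟨f, hf⟩ : R) ∈ px_S0 R := by
    intro k hk
    exact HahnSeries.coeff_eq_zero_of_lt_order (show k < f.order by push_cast at hk; omega)
  obtain ⟨c, hc⟩ := IsAlgClosed.algebraMap_bijective_of_isIntegral (k := K) (K := px_S0 R) |>.2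
    ⟨⟨f, hf⟩, hmem⟩
  have h3 := congrArg (fun z : px_S0 R => ((z : R) : LaurentSeries K)) hc
  have h4 : HahnSeries.C c = f := by
    have h5 := px_coe_algebraMap R c
    rw [← h5]
    exact h3
  rw [← h4] at hlt
  rw [HahnSeries.order_C] at hlt
  exact lt_irrefl _ hlt

/-- a space of Laurent series whose nonzero elements have orders in a finite set -/
theorem px_dim {M : Type} [AddCommGroup M] [Module K M] (ι : M →ₗ[K] LaurentSeries K)
    (hι : Function.Injective ι) (E : Finset ℤ) (h : ∀ x : M, x ≠ 0 → (ι x).order ∈ E) :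
    Module.Finite K M ∧ Module.finrank K M ≤ E.card := by
  classical
  let φ : M →ₗ[K] (E → K) :=
    { toFun := fun v z => (ι v).coeff z
      map_add' := fun x y => by
        funext z
        rw [map_add, HahnSeries.coeff_add]; rfl
      map_smul' := fun c x => by
        funext z
        rw [map_smul, HahnSeries.coeff_smul]; rfl }
  have hφ : Function.Injective φ := by
    rw [← LinearMap.ker_eq_bot, LinearMap.ker_eq_bot']
    intro v hv
    by_contra hne
    have hne' : ι v ≠ 0 := fun h0 => hne (hι (by rw [h0, map_zero]))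
    have h1 := congrFun hv ⟨(ι v).order, h v hne⟩
    exact (HahnSeries.coeff_order_eq_zero.not.2 hne') h1
  refine ⟨Module.Finite.of_injective φ hφ, ?_⟩
  have h2 := LinearMap.finrank_le_finrank_of_injective hφ
  simpa using h2

theorem px_dimA {A : Type} [CommRing A] [Algebra K A] (V : Submodule K A)
    (ι : A →ₗ[K] LaurentSeries K) (hι : Function.Injective ι) (E : Finset ℤ)
    (h : ∀ x ∈ V, x ≠ 0 → (ι x).order ∈ E) :
    Module.Finite K V ∧ Module.finrank K V ≤ E.card :=
  px_dim (ι.comp V.subtype) (hι.comp Subtype.val_injective) E fun x hx =>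
    h x x.2 fun h0 => hx (Subtype.ext h0)

/-- the inclusion of the ring -/
noncomputable def px_inc (R : Subalgebra K (LaurentSeries K)) : R →ₗ[K] LaurentSeries K where
  toFun f := (f : LaurentSeries K)
  map_add' _ _ := rfl
  map_smul' c f := by
    rw [coe_smul', HahnSeries.C_mul_eq_smul]; rfl

/-- the gaps -/
def px_gaps (R : Subalgebra K (LaurentSeries K)) : Set ℕ :=
  {k | ¬ ∃ r ∈ R, r ≠ 0 ∧ r.order = -(k : ℤ)}

theorem px_card_le [IsAlgClosed K] {R : Subalgebra K (LaurentSeries K)} {g : ℕ}
    (hR : IsSmoothCurve R g) (A : Finset ℕ) (hA : ∀ k ∈ A, k ∈ px_gaps R) : A.card ≤ g := by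
  classical
  set N : ℕ := A.sup id + 2 * g with hN
  have hAN : A ⊆ Finset.range (N + 1) := by
    intro k hk
    have := Finset.le_sup (f := id) hk
    simp only [id] at this
    rw [Finset.mem_range]
    omega
  have h1 := hR.genus N (by omega)
  have h2 := px_dimA (Lp R N) (px_inc R) Subtype.val_injective
    ((Finset.range (N + 1) \ A).image fun k : ℕ => -(k : ℤ)) (by
      intro x hx hxne
      have hx0 : (x : LaurentSeries K) ≠ 0 := fun h0 => hxne (Subtype.ext h0)
      change (x : LaurentSeries K).order ∈ _
      have h3 := px_order_le hR x.2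
      have h4 : -(N : ℤ) ≤ (x : LaurentSeries K).order := by
        by_contra hlt
        push Not at hlt
        exact (HahnSeries.coeff_order_eq_zero.not.2 hx0) (hx _ hlt)
      rw [Finset.mem_image]
      refine ⟨(-(x : LaurentSeries K).order).toNat, ?_, ?_⟩
      · rw [Finset.mem_sdiff, Finset.mem_range]
        refine ⟨by omega, fun hmem => hA _ hmem ⟨_, x.2, hx0, ?_⟩⟩
        rw [Int.toNat_of_nonneg (by omega), neg_neg]
      · rw [Int.toNat_of_nonneg (by omega), neg_neg])
  have h5 := h2.2
  rw [Finset.card_image_of_injective _ (fun a b hab => by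
    have : (a : ℤ) = b := neg_injective hab
    exact_mod_cast this), Finset.card_sdiff_of_subset hAN, Finset.card_range, h1] at h5
  have h6 := Finset.card_le_card hAN
  rw [Finset.card_range] at h6
  omega

theorem px_gaps_finite [IsAlgClosed K] {R : Subalgebra K (LaurentSeries K)} {g : ℕ}
    (hR : IsSmoothCurve R g) : ∃ G : Finset ℕ, (∀ k, k ∈ G ↔ k ∈ px_gaps R) ∧ G.card ≤ g := by
  classical
  have hfin : (px_gaps R).Finite := by
    by_contra hinf
    obtain ⟨A, hA, hc⟩ := Set.Infinite.exists_subset_card_eq hinf (g + 1)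
    have := px_card_le hR A (fun k hk => hA hk)
    omega
  refine ⟨hfin.toFinset, fun k => hfin.mem_toFinset, ?_⟩
  exact px_card_le hR _ fun k hk => hfin.mem_toFinset.1 hk

theorem perp_fin [IsAlgClosed K] [CharZero K] {R : Subalgebra K (LaurentSeries K)} {g : ℕ}
    (hR : IsSmoothCurve R g) (m : ℕ) (hm : 1 ≤ m) :
    Module.Finite K ↥(Perp R ⊓ Ge K (-(m : ℤ))) ∧
      Module.finrank K ↥(Perp R ⊓ Ge K (-(m : ℤ))) + 1 ≤ m + g := by
  classical
  obtain ⟨G, hG, hGc⟩ := px_gaps_finite hR
  have h1 := px_dim (Perp R ⊓ Ge K (-(m : ℤ))).subtype Subtype.val_injective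
    (Finset.Ico (-(m : ℤ)) (-1) ∪ G.image fun k : ℕ => (k : ℤ) - 1) (by
      intro x hx
      have hx0 : (x : LaurentSeries K) ≠ 0 := fun h0 => hx (Subtype.ext h0)
      change (x : LaurentSeries K).order ∈ _
      set z := (x : LaurentSeries K).order with hz
      have hzm : -(m : ℤ) ≤ z := by
        by_contra hlt
        push Not at hlt
        exact (HahnSeries.coeff_order_eq_zero.not.2 hx0) (x.2.2 _ hlt)
      rw [Finset.mem_union]
      by_cases hz1 : z < -1
      · left
        rw [Finset.mem_Ico]
        exact ⟨hzm, hz1⟩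
      · right
        push Not at hz1
        rw [Finset.mem_image]
        refine ⟨(z + 1).toNat, ?_, by omega⟩
        rw [hG]
        rintro ⟨r, hr, hr0, hro⟩
        have h2 := x.2.1 r hr
        have h3 : (-1 : ℤ) = (x : LaurentSeries K).order + r.order := by
          rw [hro, ← hz]; omega
        rw [h3, HahnSeries.coeff_mul_order_add_order] at h2
        exact mul_ne_zero (HahnSeries.leadingCoeff_ne_zero.2 hx0)
          (HahnSeries.leadingCoeff_ne_zero.2 hr0) h2)
  refine ⟨h1.1, ?_⟩
  have h4 := h1.2.trans (Finset.card_union_le _ _)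
  have h5 : (G.image fun k : ℕ => (k : ℤ) - 1).card ≤ g := Finset.card_image_le.trans hGc
  rw [Int.card_Ico] at h4
  omega

end Pool.Agent.TH291.EX
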