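import Pool.Agent.TH291.EX.Defs
import Pool.Agent.TH549.CK.P22

set_option autoImplicit false

/-! EX-POLE: the pole order of `s_j` on the functions vanishing to order `j` (helper474). -/

namespace Pool.Agent.TH291.EX

open TensorProduct Pool.Agent.TH549.CK

variable {K : Type} [Field K]

theorem pole_coeff (n : ℤ) (x : LaurentSeries K) (k : ℤ) :
    (HahnSeries.single n (1 : K) * x).coeff k = x.coeff (k - n) := by
  have h := HahnSeries.coeff_single_mul_add (r := (1 : K)) (x := x) (a := k - n) (b := n)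
  rw [sub_add_cancel, one_mul] at h
  exact h

theorem pole_mul {x y : LaurentSeries K} (hx : x ∈ Ge K 0) (hy : y ∈ Ge K 0) :
    x * y ∈ Ge K 0 := by
  intro k hk
  rw [HahnSeries.coeff_mul]
  refine Finset.sum_eq_zero fun p hp => ?_
  rw [Finset.mem_antidiagonal] at hp
  rcases lt_or_ge p.1 0 with h | h
  · rw [hx p.1 h, zero_mul]
  · rw [hy p.2 (by omega), mul_zero]

theorem pole_hasse (j : ℕ) {x : LaurentSeries K} (hx : x ∈ Ge K 0) :
    LaurentSeries.hasseDeriv K j x ∈ Ge K 0 := by
  intro k hk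
  rw [LaurentSeries.hasseDeriv_coeff]
  rcases lt_or_ge (k + j) 0 with h | h
  · rw [hx _ h, smul_zero]
  · obtain ⟨m, hm⟩ := Int.eq_ofNat_of_zero_le h
    rw [hm, Ring.choose_natCast, Nat.choose_eq_zero_of_lt (by omega), Nat.cast_zero, zero_smul]

theorem pole_Lp {R : Subalgebra K (LaurentSeries K)} {n : ℕ} {f : R} (hf : f ∈ Lp R n) :
    HahnSeries.single (n : ℤ) (1 : K) * (f : LaurentSeries K) ∈ Ge K 0 := by
  intro k hk
  rw [pole_coeff]
  exact hf _ (by omega)

/-- `∑ D^(a)(w^n) w^n s_b(G)` -/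
theorem pole_sum {R : Subalgebra K (LaurentSeries K)} {n : ℕ} (j : ℕ)
    (T : Lp R n ⊗[K] Lp R n) :
    ∑ p ∈ Finset.HasAntidiagonal.antidiagonal j,
      LaurentSeries.hasseDeriv K p.1 (HahnSeries.single (n : ℤ) (1 : K)) *
        HahnSeries.single (n : ℤ) (1 : K) *
        sj R p.2 (TensorProduct.map (Lp R n).subtype (Lp R n).subtype T) ∈ Ge K 0 := by
  induction T using TensorProduct.induction_on with
  | zero => simp
  | add x y hx hy =>
    have h := add_mem hx hy
    rw [← Finset.sum_add_distrib] at h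
    simpa only [map_add, mul_add] using h
  | tmul f h =>
    have h1 : LaurentSeries.hasseDeriv K j
        (HahnSeries.single (n : ℤ) (1 : K) * ((f : R) : LaurentSeries K)) *
        (HahnSeries.single (n : ℤ) (1 : K) * ((h : R) : LaurentSeries K)) ∈ Ge K 0 :=
      pole_mul (pole_hasse j (pole_Lp f.2)) (pole_Lp h.2)
    rw [P22.hasse_mul, Finset.sum_mul] at h1
    convert h1 using 1
    refine Finset.sum_congr rfl fun p _ => ?_
    rw [TensorProduct.map_tmul, sj_tmul, Submodule.subtype_apply, Submodule.subtype_apply]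
    ring

theorem sj_pole {R : Subalgebra K (LaurentSeries K)} {n j : ℕ} {G : R ⊗[K] R}
    (hG : G ∈ TT R n j) : sj R j G ∈ Ge K (-(2 * n : ℤ)) := by
  obtain ⟨⟨T, rfl⟩, h2⟩ := hG
  have h := pole_sum j T
  rw [Finset.sum_eq_single ((0 : ℕ), j)] at h
  · rw [LaurentSeries.hasseDeriv_zero] at h
    intro k hk
    have h3 := h (k + (n + n)) (by omega)
    rw [LinearMap.id_apply, mul_assoc, pole_coeff, pole_coeff,
      show k + ((n : ℤ) + n) - n - n = k by ring] at h3
    exact h3
  · intro p hp hne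
    rw [Finset.HasAntidiagonal.mem_antidiagonal] at hp
    have h4 : p.2 < j := by
      rcases Nat.lt_or_ge p.2 j with h | h
      · exact h
      · exact absurd (Prod.ext (by simp only; omega) (by simp only; omega)) hne
    rw [h2 _ h4, mul_zero]
  · intro h5
    exact absurd (Finset.HasAntidiagonal.mem_antidiagonal.2 (by simp)) h5

end Pool.Agent.TH291.EX
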