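import Pool.Agent.TH291.EX.Defs
import Pool.Agent.TH549.CK.P25
import Pool.Agent.TH549.CK.P26

set_option autoImplicit false

/-! A small element in a power of an ideal (piece EX-SMALL, written by helper374). -/

namespace Pool.Agent.TH291.EX

open TensorProduct Pool.Agent.TH549.CK

variable {K : Type} [Field K]

theorem small_ord (R : Subalgebra K (LaurentSeries K)) :
    P25.Ord (K := K) (A := R) (fun x => (x : LaurentSeries K).order) (Lp R) :=
  { mul := fun x y hx hy => HahnSeries.order_mul (fun h0 => hx (Subtype.ext h0))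
      (fun h0 => hy (Subtype.ext h0))
    mem := fun n x hx => by
      have hx' : (x : LaurentSeries K) ≠ 0 := fun h0 => hx (Subtype.ext h0)
      constructor
      · intro hm
        by_contra hlt
        exact HahnSeries.coeff_order_eq_zero.not.2 hx' (hm _ (not_le.1 hlt))
      · intro hm k hk
        exact HahnSeries.coeff_eq_zero_of_lt_order (lt_of_lt_of_le hk hm) }

theorem exists_small_pow [IsAlgClosed K] [CharZero K] {R : Subalgebra K (LaurentSeries K)} {g : ℕ}
    (hR : IsSmoothCurve R g) {D : Ideal R} (hD : D ≠ ⊥) (hfin : Module.Finite K (R ⧸ D)) {d : ℕ}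
    (hd : Module.finrank K (R ⧸ D) ≤ d) (j : ℕ) :
    ∃ a ∈ D ^ j, a ≠ 0 ∧ a ∈ Lp R (j * d + 2 * g) := by
  have hded : IsDedekindDomain R := (dedekind_of_smooth hR).1
  obtain ⟨h1, h2⟩ := P25.quot_pow (K := K) (A := R)
    (fun {_ _} h1 h2 h3 h4 => P25.quot_aux h1 h2 h3 h4) hD hfin j
  obtain ⟨a, ha, ha0, haL⟩ := P25.exists_small (small_ord R) hR.genus h1 h2
  refine ⟨a, ha, ha0, ?_⟩
  have h3 : j * Module.finrank K (R ⧸ D) ≤ j * d := Nat.mul_le_mul_left j hd
  intro k hk
  refine haL k ?_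
  have h4 : ((j * Module.finrank K (R ⧸ D) + 2 * g : ℕ) : ℤ) ≤ ((j * d + 2 * g : ℕ) : ℤ) := by
    exact_mod_cast Nat.add_le_add_right h3 _
  omega

end Pool.Agent.TH291.EX
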