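import Pool.Agent.TH291.EX.Defs
import Pool.Agent.TH549.CK.P21
import Pool.Agent.TH549.CK.P22

/-! The leading coefficient along the diagonal (part EX-SPAN). -/

set_option autoImplicit false

namespace Pool.Agent.TH291.EX

open TensorProduct Pool.Agent.TH549.CK

variable {K : Type} [Field K]

theorem span_sj_xi {R : Subalgebra K (LaurentSeries K)} (f : R) :
    sj R 1 (P22.xi K f) = - dd (f : LaurentSeries K) := by
  have h3 := congrArg (sj R 1) (P22.xi_add_tmul (K := K) f)
  rw [map_add, sj_tmul, sj_tmul, Subalgebra.coe_one, P22.hasse_one 0, zero_mul, mul_one] at h3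
  exact eq_neg_of_add_eq_zero_left h3

theorem span_one {R : Subalgebra K (LaurentSeries K)} {D : Ideal R} {x : LaurentSeries K}
    (hD : ∀ a ∈ D, ∀ f ∈ R, ∃ r : R, (a : LaurentSeries K) * dd f = r * x) {a : R} (ha : a ∈ D)
    {H : R ⊗[K] R} (hH : H ∈ KaehlerDifferential.ideal K R) :
    ∃ r : R, (a : LaurentSeries K) * sj R 1 H = r * x := by
  rw [← KaehlerDifferential.span_range_eq_ideal] at hH
  induction hH using Submodule.span_induction with
  | mem H h =>
    obtain ⟨f, rfl⟩ := h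
    obtain ⟨r, hr⟩ := hD a ha f f.2
    refine ⟨-r, ?_⟩
    have h1 := span_sj_xi (K := K) f
    unfold P22.xi at h1
    rw [h1, mul_neg, hr, Subalgebra.coe_neg, neg_mul]
  | zero => exact ⟨0, by rw [map_zero, mul_zero, Subalgebra.coe_zero, zero_mul]⟩
  | add H H' _ _ h h' =>
    obtain ⟨r, hr⟩ := h
    obtain ⟨r', hr'⟩ := h'
    exact ⟨r + r', by rw [map_add, mul_add, hr, hr', Subalgebra.coe_add, add_mul]⟩
  | smul u H hH h =>
    obtain ⟨r, hr⟩ := h
    have hH : H ∈ KaehlerDifferential.ideal K R := by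
      rw [← KaehlerDifferential.span_range_eq_ideal]
      exact hH
    have h1 := (P22.s_mul_le (s := fun k => sj R k) (fun k x y => P22.sj_mul R k x y) (a := 0)
      (b := 1) (x := u) (y := H) (fun i hi => absurd hi (Nat.not_lt_zero _))
      (fun i hi => P21.FV_one hH i hi)).2
    have h2 : sj R 1 (u • H) = sj R 0 u * sj R 1 H := h1
    refine ⟨(Algebra.TensorProduct.lmul' K u : R) * r, ?_⟩
    rw [h2, P22.sj_zero_eq, Subalgebra.coe_mul, mul_assoc, ← hr]
    ring

theorem span_of_mem {R : Subalgebra K (LaurentSeries K)} {D : Ideal R} {x : LaurentSeries K}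
    (hD : ∀ a ∈ D, ∀ f ∈ R, ∃ r : R, (a : LaurentSeries K) * dd f = r * x) (j : ℕ) :
    ∀ H ∈ (KaehlerDifferential.ideal K R) ^ j, ∀ a ∈ D ^ j,
      ∃ r : R, (a : LaurentSeries K) * sj R j H = r * x ^ j := by
  induction j with
  | zero =>
    intro H _ a _
    refine ⟨a * (Algebra.TensorProduct.lmul' K H : R), ?_⟩
    rw [P22.sj_zero_eq, Subalgebra.coe_mul, pow_zero, mul_one]
  | succ j ih =>
    intro H hH
    rw [pow_succ] at hH
    refine Submodule.mul_induction_on hH (fun H1 h1 H2 h2 a ha => ?_)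
      (fun H H' h h' a ha => ?_)
    · rw [pow_succ] at ha
      have h3 := (P22.s_mul_le (s := fun k => sj R k) (fun k x y => P22.sj_mul R k x y) (a := j)
        (b := 1) (x := H1) (y := H2) (fun i hi => FV_of_mem h1 i hi)
        (fun i hi => P21.FV_one h2 i hi)).2
      have h4 : sj R (j + 1) (H1 * H2) = sj R j H1 * sj R 1 H2 := h3
      rw [h4]
      refine Submodule.mul_induction_on ha (fun a1 ha1 a2 ha2 => ?_) (fun a a' h h' => ?_)
      · obtain ⟨r1, hr1⟩ := ih H1 h1 a1 ha1
        obtain ⟨r2, hr2⟩ := span_one hD ha2 h2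
        refine ⟨r1 * r2, ?_⟩
        calc ((a1 * a2 : R) : LaurentSeries K) * (sj R j H1 * sj R 1 H2) =
              ((a1 : LaurentSeries K) * sj R j H1) * ((a2 : LaurentSeries K) * sj R 1 H2) := by
              rw [Subalgebra.coe_mul]; ring
          _ = (r1 * x ^ j) * (r2 * x) := by rw [hr1, hr2]
          _ = _ := by rw [Subalgebra.coe_mul, pow_succ]; ring
      · obtain ⟨r, hr⟩ := h
        obtain ⟨r', hr'⟩ := h'
        exact ⟨r + r', by rw [Subalgebra.coe_add, Subalgebra.coe_add, add_mul, add_mul, hr, hr']⟩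
    · obtain ⟨r, hr⟩ := h a ha
      obtain ⟨r', hr'⟩ := h' a ha
      exact ⟨r + r', by rw [map_add, mul_add, hr, hr', Subalgebra.coe_add, add_mul]⟩

theorem span_of_FV [IsAlgClosed K] [CharZero K] {R : Subalgebra K (LaurentSeries K)}
    [IsDedekindDomain R] [Algebra.FiniteType K R] {D : Ideal R} {x : LaurentSeries K}
    (hD : ∀ a ∈ D, ∀ f ∈ R, ∃ r : R, (a : LaurentSeries K) * dd f = r * x) {j : ℕ} {a : R}
    (ha : a ∈ D ^ j) {G : R ⊗[K] R} (hG : FV R j G) :
    ∃ r : R, (a : LaurentSeries K) * sj R j G = r * x ^ j :=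
  span_of_mem hD j G (mem_of_FV hG) a ha

end Pool.Agent.TH291.EX
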