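import Pool.Agent.TH291.EX.Res474
import Pool.Agent.TH291.EX.Count2
import Pool.Agent.TH291.EX.Diff
import Pool.Agent.TH291.EX.Lower
import Pool.Agent.TH291.EX.Mult
import Pool.Agent.TH291.EX.Perp
import Pool.Agent.TH291.EX.Pole
import Pool.Agent.TH291.EX.Small
import Pool.Agent.TH291.EX.Span
import Pool.Agent.TH549.CK.P22
import Pool.Agent.TH549.CK.P26

set_option autoImplicit false

/-! Existence of sections on the square of every smooth pointed curve. -/

namespace Pool.Agent.TH291.EX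

open TensorProduct Pool.Agent.TH549.CK

variable {K : Type} [Field K]

theorem ex_dd_coeff (f : LaurentSeries K) (n : ℤ) : (dd f).coeff n = (n + 1 : ℤ) • f.coeff (n + 1) := by
  unfold dd
  rw [LaurentSeries.hasseDeriv_coeff, Nat.cast_one, Ring.choose_one_right]

/-- a function of pole order exactly `2 g + 1` -/
theorem ex_fun [IsAlgClosed K] [CharZero K] {R : Subalgebra K (LaurentSeries K)} {g : ℕ}
    (hR : IsSmoothCurve R g) : ∃ f ∈ R, (f : LaurentSeries K) ≠ 0 ∧ f.order = -((2 * g + 1 : ℕ) : ℤ) := by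
  have h1 := hR.genus (2 * g + 1) (by omega)
  have h2 := hR.genus (2 * g) (by omega)
  have hf1 := P26.Lp_finite hR (2 * g + 1)
  have hf2 := P26.Lp_finite hR (2 * g)
  have hnle : ¬ Lp R (2 * g + 1) ≤ Lp R (2 * g) := by
    intro hle
    have h3 := Submodule.finrank_mono hle
    omega
  obtain ⟨f, hf, hf'⟩ := Set.not_subset.1 hnle
  have hcoef : (f : LaurentSeries K).coeff (-((2 * g + 1 : ℕ) : ℤ)) ≠ 0 := by
    intro h0
    apply hf'
    intro k hk
    rcases eq_or_ne k (-((2 * g + 1 : ℕ) : ℤ)) with h | h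
    · rw [h]; exact h0
    · exact hf k (by push_cast at hk h ⊢; omega)
  have hne : (f : LaurentSeries K) ≠ 0 := by
    intro h0
    rw [h0] at hcoef
    exact hcoef rfl
  refine ⟨f, f.2, hne, le_antisymm (HahnSeries.order_le_of_coeff_ne_zero hcoef) ?_⟩
  by_contra hlt
  exact HahnSeries.coeff_order_eq_zero.not.2 hne (hf _ (not_le.1 hlt))

theorem ex_dd_order [CharZero K] {f : LaurentSeries K} {N : ℕ} (hN : 1 ≤ N) (hf : f ≠ 0)
    (ho : f.order = -(N : ℤ)) : dd f ≠ 0 ∧ (dd f).order = -((N : ℤ) + 1) := by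
  have h1 : (dd f).coeff (-((N : ℤ) + 1)) ≠ 0 := by
    rw [ex_dd_coeff]
    have h2 : (-((N : ℤ) + 1) + 1) = -(N : ℤ) := by ring
    rw [h2, ← ho]
    have h3 : f.coeff f.order ≠ 0 := HahnSeries.coeff_order_eq_zero.not.2 hf
    rw [ho] at h3 ⊢
    rw [zsmul_eq_mul]
    refine mul_ne_zero ?_ h3
    push_cast
    rw [neg_ne_zero]
    exact Nat.cast_ne_zero.2 (by omega)
  have hne : dd f ≠ 0 := by
    intro h0
    rw [h0] at h1
    exact h1 rfl
  refine ⟨hne, le_antisymm (HahnSeries.order_le_of_coeff_ne_zero h1) ?_⟩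
  by_contra hlt
  rw [not_le] at hlt
  refine HahnSeries.coeff_order_eq_zero.not.2 hne ?_
  rw [ex_dd_coeff, HahnSeries.coeff_eq_zero_of_lt_order (by rw [ho]; omega), smul_zero]

theorem ex_bound [IsAlgClosed K] [CharZero K] {R : Subalgebra K (LaurentSeries K)} {g : ℕ}
    (hg : 1 ≤ g) (hR : IsSmoothCurve R g) (n j : ℕ) :
    Module.Finite K ↥((TT R n j).map (sj R j)) ∧
      Module.finrank K ↥((TT R n j).map (sj R j)) ≤ 2 * n + j * (2 * g - 2) + 2 * g + 1 := by
  obtain ⟨hDed, hFt⟩ := dedekind_of_smooth hR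
  obtain ⟨f, hfR, hf0, hfo⟩ := ex_fun hR
  obtain ⟨hx0, hxo⟩ := ex_dd_order (by omega) hf0 hfo
  have hxP : dd f ∈ Perp R := fun r hr => residue_474 hR hfR hr
  obtain ⟨D, hD0, hDf, hDr, hD⟩ := exists_diff hR (fun m hm => perp_fin hR m hm) hxP hx0 hxo
  obtain ⟨a, haD, ha0, haL⟩ := exists_small_pow hR hD0 hDf
    (d := 4 * g) (by omega) j
  have hxj : (dd f) ^ j ≠ 0 := pow_ne_zero j hx0
  have hxjo : ((dd f) ^ j).order = -((j * (2 * g + 2) : ℕ) : ℤ) := by
    rw [HahnSeries.order_pow, hxo]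
    push_cast
    rw [nsmul_eq_mul]
    ring
  refine finrank_le_of_mult hR (m := 2 * n) (e := j * (4 * g) + 2 * g) (c := j * (2 * g + 2))
    (B := 2 * n + j * (2 * g - 2) + 2 * g) ha0 haL hxj hxjo ?_ ?_ ?_
  · rintro _ ⟨G, hG, rfl⟩
    have := sj_pole hG
    push_cast
    exact this
  · rintro _ ⟨G, hG, rfl⟩
    exact span_of_FV (fun a ha f hf => hD a ha _ (fun r hr => residue_474 hR hf hr)) haD hG.2
  · obtain ⟨k, rfl⟩ : ∃ k, g = k + 1 := ⟨g - 1, by omega⟩
    have h1 : 2 * (k + 1) - 2 = 2 * k := by omega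
    rw [h1]
    have h2 : j * (4 * (k + 1)) = j * (2 * (k + 1) + 2) + j * (2 * k) := by ring
    omega

/-- On the square of every smooth pointed curve of genus `g ≥ 1` some positive multiple of the class
`n (F₁ + F₂) - b Δ` is effective, if `(1 + √g) b < n`. -/
theorem exists_section [IsAlgClosed K] [CharZero K] {R : Subalgebra K (LaurentSeries K)} {g : ℕ}
    (hg : 1 ≤ g) (hR : IsSmoothCurve R g) {n b : ℕ} (h : (1 + Real.sqrt g) * b < n) :
    ∃ r : ℕ, 0 < r ∧ ∃ G : R ⊗[K] R, G ≠ 0 ∧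
      G ∈ LinearMap.range (TensorProduct.map (Lp R (r * n)).subtype (Lp R (r * n)).subtype) ∧
      G ∈ (KaehlerDifferential.ideal K R) ^ (r * b) := by
  obtain ⟨hDed, hFt⟩ := dedekind_of_smooth hR
  obtain ⟨r, hr, hr1, hsum⟩ := count_pos2 g n b hg h
  refine ⟨r, hr, ?_⟩
  obtain ⟨hfin, hle⟩ := finrank_TT_lower hR (n := r * n) hr1 (fun j => ex_bound hg hR (r * n) j) (r * b)
  have hpos : 0 < Module.finrank K (TT R (r * n) (r * b)) := by omega
  have hnt : Nontrivial (TT R (r * n) (r * b)) := Module.nontrivial_of_finrank_pos hpos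
  obtain ⟨G, hG⟩ := exists_ne (0 : TT R (r * n) (r * b))
  exact ⟨G, fun h0 => hG (Subtype.ext h0), G.2.1, mem_of_FV G.2.2⟩

end Pool.Agent.TH291.EX
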