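import Pool.Agent.TH291.EX.Defs

set_option autoImplicit false
set_option synthInstance.maxHeartbeats 400000
set_option maxHeartbeats 4000000

/-! Residue theorem for a smooth pointed curve in `K((w))`. -/

namespace Pool.Agent.TH291.EX

open TensorProduct Pool.Agent.TH549.CK

variable {K : Type} [Field K]

namespace Res227

/-- the coefficient of `w ^ (-(M + 1 + j))` -/
def cf (M j : ℕ) (v : LaurentSeries K) : K := v.coeff (-((M : ℤ) + 1 + j))

theorem cf_add (M j : ℕ) (v u : LaurentSeries K) : cf M j (v + u) = cf M j v + cf M j u := by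
  unfold cf; rw [HahnSeries.coeff_add]

theorem cf_sub (M j : ℕ) (v u : LaurentSeries K) : cf M j (v - u) = cf M j v - cf M j u := by
  unfold cf; rw [HahnSeries.coeff_sub]

theorem cf_C (M j : ℕ) (c : K) (v : LaurentSeries K) :
    cf M j (HahnSeries.C c * v) = c * cf M j v := by
  unfold cf; rw [HahnSeries.C_mul_eq_smul, HahnSeries.coeff_smul, smul_eq_mul]

theorem cf_smul (M j : ℕ) (c : K) (v : LaurentSeries K) :
    cf M j (c • v) = c * cf M j v := by
  unfold cf; rw [HahnSeries.coeff_smul, smul_eq_mul]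

theorem cf_zero (M j : ℕ) : cf M j (0 : LaurentSeries K) = 0 := rfl

theorem cf_sum (M j : ℕ) {ι : Type} (s : Finset ι) (v : ι → LaurentSeries K) :
    cf M j (∑ i ∈ s, v i) = ∑ i ∈ s, cf M j (v i) := by
  classical
  induction s using Finset.induction_on with
  | empty => rfl
  | insert a s ha ih => rw [Finset.sum_insert ha, Finset.sum_insert ha, cf_add, ih]

theorem ge_mul {m n : ℤ} {v u : LaurentSeries K} (hv : v ∈ Ge K m) (hu : u ∈ Ge K n) :
    v * u ∈ Ge K (m + n) := by
  intro k hk
  rw [HahnSeries.coeff_mul]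
  refine Finset.sum_eq_zero fun ij hij => ?_
  have h1 := (Finset.mem_antidiagonal.1 hij).2.2
  by_cases h2 : ij.1 < m
  · rw [hv _ h2, zero_mul]
  · rw [hu ij.2 (by omega), mul_zero]

theorem ge_mono {m n : ℤ} (h : n ≤ m) {v : LaurentSeries K} (hv : v ∈ Ge K m) : v ∈ Ge K n :=
  fun k hk => hv k (by omega)

theorem ge_C {m : ℤ} (c : K) {v : LaurentSeries K} (hv : v ∈ Ge K m) :
    HahnSeries.C c * v ∈ Ge K m := by
  rw [HahnSeries.C_mul_eq_smul]; exact Submodule.smul_mem _ _ hv

theorem exists_ge (v : LaurentSeries K) : ∃ N : ℕ, v ∈ Ge K (-(N : ℤ)) := by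
  refine ⟨(-(v.order)).toNat, fun k hk => ?_⟩
  apply HahnSeries.coeff_eq_zero_of_lt_order
  have := Int.self_le_toNat (-(v.order))
  omega

theorem C_mem (R : Subalgebra K (LaurentSeries K)) (c : K) : HahnSeries.C c ∈ R := by
  have := R.algebraMap_mem c
  rwa [LaurentSeries.algebraMap_apply] at this

/-- elements of `R` with a pole of order at most `M` -/
def RM (R : Subalgebra K (LaurentSeries K)) (M : ℕ) : Submodule K (LaurentSeries K) where
  carrier := {v | v ∈ R ∧ v ∈ Ge K (-(M : ℤ))}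
  add_mem' := fun {x y} hx hy => ⟨R.add_mem hx.1 hy.1, Submodule.add_mem _ hx.2 hy.2⟩
  zero_mem' := ⟨R.zero_mem, Submodule.zero_mem _⟩
  smul_mem' := fun c x hx => by
    refine ⟨?_, Submodule.smul_mem _ _ hx.2⟩
    rw [← HahnSeries.C_mul_eq_smul]
    exact R.mul_mem (C_mem R c) hx.1

theorem mem_RM {R : Subalgebra K (LaurentSeries K)} {M : ℕ} {v : LaurentSeries K} :
    v ∈ RM R M ↔ v ∈ R ∧ v ∈ Ge K (-(M : ℤ)) := Iff.rfl

theorem finite_gen227 {k A : Type} [Field k] [CommRing A] [Algebra k A] (V : Submodule k A)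
    (h : 0 < Module.finrank k V) : Module.Finite k V :=
  Module.finite_of_finrank_pos h

theorem finite_inj227 {k A : Type} [Field k] [CommRing A] [Algebra k A] (V : Submodule k A)
    (hV : Module.Finite k V) {W : Type} [AddCommGroup W] [Module k W] (φ : W →ₗ[k] V)
    (hφ : Function.Injective φ) : Module.Finite k W :=
  Module.Finite.of_injective φ hφ

theorem RM_finite {R : Subalgebra K (LaurentSeries K)} {g : ℕ} (hR : IsSmoothCurve R g) (M : ℕ)
    (hM : 2 * g ≤ M) : Module.Finite K (RM R M) := by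
  have h1 : Module.finrank K (Lp R M) = M + 1 - g := hR.genus M (by omega)
  have h2 : Module.Finite K (Lp R M) := finite_gen227 (Lp R M) (by omega)
  let φ : RM R M →ₗ[K] Lp R M :=
    { toFun := fun v => ⟨⟨v.1, v.2.1⟩, v.2.2⟩
      map_add' := fun x y => rfl
      map_smul' := fun c x => by
        apply Subtype.ext
        apply Subtype.ext
        change ((c • x : RM R M) : LaurentSeries K) =
          ((c • (⟨x.1, x.2.1⟩ : R) : R) : LaurentSeries K)
        rw [coe_smul', HahnSeries.C_mul_eq_smul]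
        rfl }
  refine finite_inj227 (Lp R M) h2 φ ?_
  intro x y hxy
  apply Subtype.ext
  exact congrArg (fun z : Lp R M => ((z : R) : LaurentSeries K)) hxy

/-- there are elements with every pole order `n > 2g` -/
theorem exists_pole {R : Subalgebra K (LaurentSeries K)} {g : ℕ} (hR : IsSmoothCurve R g) (n : ℕ)
    (hn : 2 * g ≤ n) : ∃ v ∈ R, v ∈ Ge K (-((n : ℤ) + 1)) ∧ v.coeff (-((n : ℤ) + 1)) = 1 := by
  have h1 : Module.finrank K (Lp R (n + 1)) = (n + 1) + 1 - g := hR.genus (n + 1) (by omega)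
  have h0 : Module.finrank K (Lp R n) = n + 1 - g := hR.genus n (by omega)
  have hne : ¬ Lp R (n + 1) ≤ Lp R n := by
    intro hle
    have hle2 : Lp R n ≤ Lp R (n + 1) := fun x hx k hk => hx k (by push_cast at hk; omega)
    have := le_antisymm hle hle2
    rw [this] at h1
    omega
  rw [SetLike.not_le_iff_exists] at hne
  obtain ⟨x, hx1, hx2⟩ := hne
  rw [mem_Lp] at hx2
  push Not at hx2
  obtain ⟨k, hk1, hk2⟩ := hx2
  have hk3 : k = -((n : ℤ) + 1) := by
    by_contra hne
    apply hk2
    apply hx1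
    push_cast
    omega
  rw [hk3] at hk2
  refine ⟨HahnSeries.C ((((x : R) : LaurentSeries K).coeff (-((n : ℤ) + 1)))⁻¹) *
    ((x : R) : LaurentSeries K), R.mul_mem (C_mem R _) x.2, ge_C _ ?_, ?_⟩
  · intro k hk
    apply hx1
    push_cast
    omega
  · rw [HahnSeries.C_mul_eq_smul, HahnSeries.coeff_smul, smul_eq_mul, inv_mul_cancel₀ hk2]

theorem exists_r {R : Subalgebra K (LaurentSeries K)} {g : ℕ} (hR : IsSmoothCurve R g) (M : ℕ)
    (hM : 2 * g ≤ M) : ∃ r : ℕ → LaurentSeries K, (∀ j, r j ∈ R) ∧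
      ∀ j i, cf M i (r j) = if i = j then 1 else 0 := by
  have key : ∀ j : ℕ, ∃ r ∈ R, ∀ i, cf M i r = if i = j then (1 : K) else 0 := by
    intro j
    induction j using Nat.strong_induction_on with
    | _ j ih =>
      choose rr h1 h2 using ih
      obtain ⟨v, hv1, hv2, hv3⟩ := exists_pole hR (M + j) (by omega)
      refine ⟨v - ∑ i : Fin j, HahnSeries.C (cf M i v) * rr i i.2, ?_, fun i0 => ?_⟩
      · refine R.sub_mem hv1 (R.sum_mem fun i _ => R.mul_mem (C_mem R _) (h1 _ _))
      · rw [cf_sub, cf_sum]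
        simp only [cf_C, h2]
        rcases lt_trichotomy i0 j with h | h | h
        · rw [Finset.sum_eq_single ⟨i0, h⟩]
          · simp only [if_true, mul_one, sub_self]
            rw [if_neg (by omega)]
          · intro b _ hb
            rw [if_neg (fun h' => hb (Fin.ext h'.symm)), mul_zero]
          · intro h'; exact absurd (Finset.mem_univ _) h'
        · rw [Finset.sum_eq_zero, sub_zero, if_pos h, h]
          · unfold cf
            rw [← hv3]
            congr 1
            push_cast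
            ring
          · intro b _
            rw [if_neg (by have := b.2; omega), mul_zero]
        · rw [Finset.sum_eq_zero, sub_zero, if_neg (by omega)]
          · apply hv2
            push_cast
            omega
          · intro b _
            rw [if_neg (by have := b.2; omega), mul_zero]
  choose r h1 h2 using key
  exact ⟨r, h1, h2⟩

section main

variable (R : Subalgebra K (LaurentSeries K)) (M J : ℕ) (r : ℕ → LaurentSeries K)

/-- the projection to `Ge (-M)` along the `r j` -/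
noncomputable def q (v : LaurentSeries K) : LaurentSeries K :=
  v - ∑ j ∈ Finset.range J, HahnSeries.C (cf M j v) * r j

theorem q_add (v u : LaurentSeries K) : q M J r (v + u) = q M J r v + q M J r u := by
  unfold q
  simp only [cf_add, map_add, add_mul, Finset.sum_add_distrib]
  ring

theorem q_C (c : K) (v : LaurentSeries K) :
    q M J r (HahnSeries.C c * v) = HahnSeries.C c * q M J r v := by
  unfold q
  rw [mul_sub, Finset.mul_sum]
  congr 1
  refine Finset.sum_congr rfl fun j _ => ?_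
  rw [cf_C, map_mul, mul_assoc]

variable (hr : ∀ j, r j ∈ R) (hri : ∀ j i, cf M i (r j) = if i = j then (1 : K) else 0)

include hri in
theorem cf_q (v : LaurentSeries K) (i : ℕ) :
    cf M i (q M J r v) = if i < J then 0 else cf M i v := by
  unfold q
  rw [cf_sub, cf_sum]
  simp only [cf_C, hri, mul_ite, mul_one, mul_zero, Finset.sum_ite_eq, Finset.mem_range]
  split_ifs <;> simp

include hr hri in
theorem q_mem {v : LaurentSeries K} (hv : v ∈ R) (hg : v ∈ Ge K (-((M : ℤ) + J))) :
    q M J r v ∈ RM R M := by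
  refine ⟨R.sub_mem hv (R.sum_mem fun j _ => R.mul_mem (C_mem R _) (hr j)), fun k hk => ?_⟩
  obtain ⟨i, hi⟩ : ∃ i : ℕ, k = -((M : ℤ) + 1 + i) := ⟨(-(k + M + 1)).toNat, by
    have := Int.toNat_of_nonneg (show 0 ≤ -(k + M + 1) by omega)
    omega⟩
  have h1 := cf_q M J r hri v i
  have h2 : (q M J r v).coeff k = cf M i (q M J r v) := by unfold cf; rw [hi]
  rw [h2, h1]
  split_ifs with h
  · rfl
  · exact hg _ (by push_cast; omega)

variable {R M J r}

/-- `v ↦ q (f v)` on `RM R M` -/
noncomputable def Q (hr : ∀ j, r j ∈ R)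
    (hri : ∀ j i, cf M i (r j) = if i = j then (1 : K) else 0) (f : LaurentSeries K) (hf : f ∈ R)
    (hfg : f ∈ Ge K (-(J : ℤ))) : RM R M →ₗ[K] RM R M where
  toFun v := ⟨q M J r (f * v), q_mem R M J r hr hri (R.mul_mem hf v.2.1)
    (ge_mono (by omega) (ge_mul hfg v.2.2))⟩
  map_add' := fun x y => by
    apply Subtype.ext
    change q M J r (f * (x.1 + y.1)) = q M J r (f * x.1) + q M J r (f * y.1)
    rw [mul_add, q_add]
  map_smul' := fun c x => by
    apply Subtype.ext
    change q M J r (f * (c • x.1)) = c • q M J r (f * x.1)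
    rw [← HahnSeries.C_mul_eq_smul, ← HahnSeries.C_mul_eq_smul, ← q_C]
    congr 1
    ring

end main

/-- the Toeplitz sum -/
theorem toeplitz (φ : ℤ → K) (N K' L : ℕ) (hφ : ∀ d : ℤ, (N : ℤ) < d → φ d = 0) (hK : N ≤ K')
    (hL : K' + N ≤ L) :
    ∑ k ∈ Finset.range K', ∑ j ∈ Finset.Ico K' L, φ ((j : ℤ) - k) =
      ∑ d ∈ Finset.Icc 1 N, (d : K) * φ d := by
  have e1 : ∀ k ∈ Finset.range K', ∑ j ∈ Finset.Ico K' L, φ ((j : ℤ) - k) =
      ∑ d ∈ Finset.Icc 1 N, if K' - k ≤ d then φ d else 0 := by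
    intro k hk
    rw [Finset.mem_range] at hk
    rw [← Finset.sum_filter]
    have e2 : ∑ d ∈ (Finset.Icc 1 N).filter (fun d => K' - k ≤ d), φ (d : ℤ) =
        ∑ j ∈ ((Finset.Icc 1 N).filter (fun d => K' - k ≤ d)).image (fun d => d + k),
          φ ((j : ℤ) - k) := by
      rw [Finset.sum_image (fun a _ b _ h => by simpa using h)]
      refine Finset.sum_congr rfl fun d _ => ?_
      congr 1
      push_cast
      ring
    rw [e2]
    symm
    apply Finset.sum_subset
    · intro j hj
      simp only [Finset.mem_image, Finset.mem_filter, Finset.mem_Icc] at hj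
      obtain ⟨d, ⟨⟨h1, h2⟩, h3⟩, h4⟩ := hj
      rw [Finset.mem_Ico]
      omega
    · intro j hj hj2
      apply hφ
      rw [Finset.mem_Ico] at hj
      by_contra hcon
      apply hj2
      simp only [Finset.mem_image, Finset.mem_filter, Finset.mem_Icc]
      exact ⟨j - k, ⟨⟨by omega, by omega⟩, by omega⟩, by omega⟩
  rw [Finset.sum_congr rfl e1, Finset.sum_comm]
  refine Finset.sum_congr rfl fun d hd => ?_
  rw [Finset.mem_Icc] at hd
  rw [← Finset.sum_filter, Finset.sum_const, nsmul_eq_mul]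
  congr 2
  have e3 : (Finset.range K').filter (fun k => K' - k ≤ d) = Finset.Ico (K' - d) K' := by
    ext k
    simp only [Finset.mem_filter, Finset.mem_range, Finset.mem_Ico]
    omega
  rw [e3, Nat.card_Ico]
  omega

/-- the residue as a finite sum -/
theorem res_sum {N : ℕ} {f h : LaurentSeries K} (hf : f ∈ Ge K (-(N : ℤ)))
    (hh : h ∈ Ge K (-(N : ℤ))) :
    (dd f * h).coeff (-1) = ∑ d ∈ Finset.Icc 1 N,
      (d : K) * (f.coeff d * h.coeff (-d) - h.coeff d * f.coeff (-d)) := by
  have hdd : ∀ n : ℤ, (dd f).coeff n = ((n + 1 : ℤ) : K) * f.coeff (n + 1) := by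
    intro n
    unfold dd
    rw [LaurentSeries.hasseDeriv_coeff]
    simp [Ring.choose_one_right]
  rw [HahnSeries.coeff_mul]
  have e1 : ∑ ij ∈ Finset.antidiagonal (dd f).isPWO_support h.isPWO_support (-1),
      (dd f).coeff ij.1 * h.coeff ij.2 =
      ∑ ij ∈ (Finset.Icc (-(N : ℤ)) N).image (fun d : ℤ => (d - 1, -d)),
        (dd f).coeff ij.1 * h.coeff ij.2 := by
    apply Finset.sum_subset
    · rintro ⟨i, j⟩ hij
      rw [Finset.mem_antidiagonal] at hij
      obtain ⟨h1, h2, h3⟩ := hij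
      simp only at h1 h2 h3
      rw [HahnSeries.mem_support] at h1 h2
      have h4 : -(N : ℤ) ≤ i + 1 := by
        by_contra hcon
        apply h1
        rw [hdd, hf (i + 1) (by omega), mul_zero]
      have h5 : -(N : ℤ) ≤ j := by
        by_contra hcon
        exact h2 (hh j (by omega))
      rw [Finset.mem_image]
      refine ⟨i + 1, Finset.mem_Icc.2 ⟨h4, by omega⟩, ?_⟩
      ext <;> simp <;> omega
    · rintro ⟨i, j⟩ hij hij2
      rw [Finset.mem_image] at hij
      obtain ⟨d, hd, hd2⟩ := hij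
      simp only [Prod.mk.injEq] at hd2
      by_contra hcon
      apply hij2
      rw [Finset.mem_antidiagonal]
      refine ⟨?_, ?_, ?_⟩
      · rw [HahnSeries.mem_support]
        intro h0
        apply hcon
        simp only at h0 ⊢
        rw [h0, zero_mul]
      · rw [HahnSeries.mem_support]
        intro h0
        apply hcon
        simp only at h0 ⊢
        rw [h0, mul_zero]
      · simp only
        omega
  rw [e1, Finset.sum_image (fun a _ b _ hab => by
    simp only [Prod.mk.injEq] at hab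
    omega)]
  simp only [hdd, sub_add_cancel]
  have e2 : Finset.Icc (-(N : ℤ)) N = ((Finset.Icc 1 N).image fun d : ℕ => (d : ℤ)) ∪
      (((Finset.Icc 1 N).image fun d : ℕ => -(d : ℤ)) ∪ {0}) := by
    ext z
    simp only [Finset.mem_Icc, Finset.mem_union, Finset.mem_image, Finset.mem_singleton]
    constructor
    · intro hz
      rcases lt_trichotomy z 0 with h | h | h
      · right; left; exact ⟨(-z).toNat, by omega, by omega⟩
      · right; right; exact h
      · left; exact ⟨z.toNat, by omega, by omega⟩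
    · rintro (⟨d, h1, h2⟩ | ⟨d, h1, h2⟩ | h) <;> omega
  rw [e2, Finset.sum_union, Finset.sum_union, Finset.sum_singleton, Finset.sum_image,
    Finset.sum_image]
  · rw [Int.cast_zero, zero_mul, zero_mul, add_zero, ← Finset.sum_add_distrib]
    refine Finset.sum_congr rfl fun d _ => ?_
    push_cast
    rw [neg_neg]
    ring
  · intro a _ b _ hab; simpa using hab
  · intro a _ b _ hab; simpa using hab
  · rw [Finset.disjoint_left]
    intro z h1 h2
    simp only [Finset.mem_image, Finset.mem_Icc, Finset.mem_singleton] at h1 h2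
    obtain ⟨d, hd, hd2⟩ := h1
    omega
  · rw [Finset.disjoint_left]
    intro z h1 h2
    simp only [Finset.mem_image, Finset.mem_Icc, Finset.mem_singleton, Finset.mem_union] at h1 h2
    obtain ⟨d, hd, hd2⟩ := h1
    rcases h2 with ⟨d', hd', hd2'⟩ | h2 <;> omega

section fin

variable {R : Subalgebra K (LaurentSeries K)} {M J : ℕ} {r : ℕ → LaurentSeries K}

/-- `q` as a linear map -/
noncomputable def qL (M J : ℕ) (r : ℕ → LaurentSeries K) :
    LaurentSeries K →ₗ[K] LaurentSeries K where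
  toFun := q M J r
  map_add' := q_add M J r
  map_smul' := fun c v => by
    rw [← HahnSeries.C_mul_eq_smul, q_C, RingHom.id_apply, HahnSeries.C_mul_eq_smul]

theorem cf_ge {M N i : ℕ} {v : LaurentSeries K} (hv : v ∈ Ge K (-((N : ℤ) + M))) (hi : N ≤ i) :
    cf M i v = 0 := by
  apply hv
  omega

theorem sum_r (v : LaurentSeries K) :
    ∑ j ∈ Finset.range J, HahnSeries.C (cf M j v) * r j = v - q M J r v := by
  unfold q; ring

theorem r_ge (hri : ∀ j i, cf M i (r j) = if i = j then (1 : K) else 0) (j : ℕ) :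
    r j ∈ Ge K (-((M : ℤ) + 1 + j)) := by
  intro k hk
  obtain ⟨i, hi⟩ : ∃ i : ℕ, k = -((M : ℤ) + 1 + i) := ⟨(-(k + M + 1)).toNat, by
    have := Int.toNat_of_nonneg (show 0 ≤ -(k + M + 1) by omega)
    omega⟩
  have h1 := hri j i
  unfold cf at h1
  rw [hi, h1, if_neg (by omega)]

theorem trace_id (hr : ∀ j, r j ∈ R)
    (hri : ∀ j i, cf M i (r j) = if i = j then (1 : K) else 0) {N : ℕ} (hJ : 3 * N ≤ J)
    (hfin : Module.Finite K (RM R M))
    {f h : LaurentSeries K} (hf : f ∈ R) (hh : h ∈ R) (hfg : f ∈ Ge K (-(N : ℤ)))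
    (hhg : h ∈ Ge K (-(N : ℤ))) (hfJ : f ∈ Ge K (-(J : ℤ))) (hhJ : h ∈ Ge K (-(J : ℤ)))
    (hfhJ : f * h ∈ Ge K (-(J : ℤ))) :
    ∑ k ∈ Finset.range (2 * N), cf M k (h * q M J r (f * r k)) =
      LinearMap.trace K (RM R M) (Q hr hri (f * h) (R.mul_mem hf hh) hfhJ) -
      LinearMap.trace K (RM R M) (Q hr hri f hf hfJ ∘ₗ Q hr hri h hh hhJ) := by
  have hx : ∀ k : Fin (2 * N), q M J r (f * r k) ∈ RM R M := by
    intro k
    have hk := k.2
    exact q_mem R M J r hr hri (R.mul_mem hf (hr _))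
      (ge_mono (by omega) (ge_mul hfg (r_ge hri k)))
  let γ : Fin (2 * N) → (RM R M →ₗ[K] K) := fun k =>
    { toFun := fun v => cf M k (h * v.1)
      map_add' := fun x y => by
        change cf M k (h * (x.1 + y.1)) = _
        rw [mul_add, cf_add]
      map_smul' := fun c x => by
        change cf M k (h * (c • x.1)) = _
        rw [← HahnSeries.C_mul_eq_smul, mul_left_comm, cf_C]
        rfl }
  let x : Fin (2 * N) → RM R M := fun k => ⟨q M J r (f * r k), hx k⟩
  have hT : ∑ k, (γ k).smulRight (x k) = Q hr hri (f * h) (R.mul_mem hf hh) hfhJ -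
      Q hr hri f hf hfJ ∘ₗ Q hr hri h hh hhJ := by
    apply LinearMap.ext
    intro v
    apply Subtype.ext
    have e0 : ((∑ k, (γ k).smulRight (x k)) v : RM R M).1 =
        ∑ k : Fin (2 * N), cf M k (h * v.1) • q M J r (f * r k) := by
      rw [LinearMap.sum_apply]
      rw [AddSubmonoidClass.coe_finsetSum]
      rfl
    have e1 : ((Q hr hri (f * h) (R.mul_mem hf hh) hfhJ -
        Q hr hri f hf hfJ ∘ₗ Q hr hri h hh hhJ) v : RM R M).1 =
        q M J r (f * h * v.1) - q M J r (f * q M J r (h * v.1)) := rfl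
    rw [e0, e1]
    have hv0 : ∀ i, N ≤ i → cf M i (h * v.1) = 0 := fun i hi =>
      cf_ge (ge_mono (by omega) (ge_mul hhg v.2.2)) hi
    have e2 : ∑ k : Fin (2 * N), cf M k (h * v.1) • q M J r (f * r k) =
        q M J r (f * ∑ j ∈ Finset.range J, HahnSeries.C (cf M j (h * v.1)) * r j) := by
      rw [Finset.mul_sum]
      change _ = qL M J r _
      rw [map_sum]
      rw [← Fin.sum_univ_eq_sum_range (fun k => qL M J r (f * (HahnSeries.C (cf M k (h * v.1)) * r k))) J]
      rw [Fin.sum_univ_eq_sum_range (fun k => qL M J r (f * (HahnSeries.C (cf M k (h * v.1)) * r k))) J]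
      rw [Fin.sum_univ_eq_sum_range (fun k => cf M k (h * v.1) • q M J r (f * r k)) (2 * N)]
      have e3 : ∀ k, qL M J r (f * (HahnSeries.C (cf M k (h * v.1)) * r k)) =
          cf M k (h * v.1) • q M J r (f * r k) := by
        intro k
        rw [mul_left_comm, HahnSeries.C_mul_eq_smul, map_smul]
        rfl
      simp only [e3]
      apply Finset.sum_subset
      · intro k hk
        rw [Finset.mem_range] at hk ⊢
        omega
      · intro k _ hk2
        rw [Finset.mem_range] at hk2
        rw [hv0 k (by omega), zero_smul]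
    rw [e2, sum_r, mul_sub]
    change qL M J r _ = _
    rw [map_sub, mul_assoc]
    rfl
  have hT2 : ∑ k, (γ k).smulRight (x k) + Q hr hri f hf hfJ ∘ₗ Q hr hri h hh hhJ =
      Q hr hri (f * h) (R.mul_mem hf hh) hfhJ := by
    rw [hT]
    apply LinearMap.ext
    intro v
    apply Subtype.ext
    change (q M J r (f * h * v.1) - q M J r (f * q M J r (h * v.1))) +
      q M J r (f * q M J r (h * v.1)) = q M J r (f * h * v.1)
    ring
  have h3 := congrArg (LinearMap.trace K (RM R M)) hT2
  rw [map_add, map_sum] at h3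
  simp only [LinearMap.trace_smulRight] at h3
  rw [← h3, add_sub_cancel_right,
    ← Fin.sum_univ_eq_sum_range (fun k => cf M k (h * q M J r (f * r k))) (2 * N)]
  rfl

theorem cf_mul_r (hri : ∀ j i, cf M i (r j) = if i = j then (1 : K) else 0) {N : ℕ}
    {f : LaurentSeries K} (hfg : f ∈ Ge K (-(N : ℤ))) (i j : ℕ) (hi : N ≤ i) :
    cf M i (f * r j) = f.coeff ((j : ℤ) - i) := by
  have hρ : r j - HahnSeries.single (-((M : ℤ) + 1 + j)) (1 : K) ∈ Ge K (-(M : ℤ)) := by
    intro k hk
    obtain ⟨i, hi⟩ : ∃ i : ℕ, k = -((M : ℤ) + 1 + i) := ⟨(-(k + M + 1)).toNat, by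
      have := Int.toNat_of_nonneg (show 0 ≤ -(k + M + 1) by omega)
      omega⟩
    have h1 := hri j i
    unfold cf at h1
    rw [HahnSeries.coeff_sub, hi, h1, HahnSeries.coeff_single]
    by_cases h : i = j
    · rw [if_pos h, if_pos (by rw [h]), sub_self]
    · rw [if_neg h, if_neg (by omega), sub_self]
  have e : f * r j = f * HahnSeries.single (-((M : ℤ) + 1 + j)) (1 : K) +
      f * (r j - HahnSeries.single (-((M : ℤ) + 1 + j)) (1 : K)) := by ring
  rw [e, cf_add, cf_ge (ge_mono (by omega) (ge_mul hfg hρ)) hi, add_zero]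
  unfold cf
  have e2 : (-((M : ℤ) + 1 + i)) = ((j : ℤ) - i) + (-((M : ℤ) + 1 + j)) := by ring
  rw [e2, HahnSeries.coeff_mul_single_add, mul_one]

end fin

end Res227

open Res227

/-- **Residue theorem.** -/
theorem residue [IsAlgClosed K] [CharZero K] {R : Subalgebra K (LaurentSeries K)} {g : ℕ}
    (hR : IsSmoothCurve R g) {f h : LaurentSeries K} (hf : f ∈ R) (hh : h ∈ R) :
    (dd f * h).coeff (-1) = 0 := by
  obtain ⟨N1, h1⟩ := exists_ge f
  obtain ⟨N2, h2⟩ := exists_ge h
  obtain ⟨N, hN⟩ : ∃ N, N = max N1 N2 := ⟨_, rfl⟩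
  have hfg : f ∈ Ge K (-(N : ℤ)) := ge_mono (by have := le_max_left N1 N2; omega) h1
  have hhg : h ∈ Ge K (-(N : ℤ)) := ge_mono (by have := le_max_right N1 N2; omega) h2
  obtain ⟨M, hM⟩ : ∃ M, M = 2 * g := ⟨_, rfl⟩
  obtain ⟨J, hJ⟩ : ∃ J, J = 3 * N := ⟨_, rfl⟩
  obtain ⟨r, hr, hri⟩ := exists_r hR M (by omega)
  have hfin := RM_finite hR M (by omega)
  have hfJ : f ∈ Ge K (-(J : ℤ)) := ge_mono (by omega) hfg
  have hhJ : h ∈ Ge K (-(J : ℤ)) := ge_mono (by omega) hhg
  have hfh : f * h ∈ Ge K (-(J : ℤ)) := ge_mono (by omega) (ge_mul hfg hhg)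
  have hhf : h * f ∈ Ge K (-(J : ℤ)) := ge_mono (by omega) (ge_mul hhg hfg)
  have t1 := trace_id hr hri (N := N) (J := J) (by omega) hfin hf hh hfg hhg hfJ hhJ hfh
  have t2 := trace_id hr hri (N := N) (J := J) (by omega) hfin hh hf hhg hfg hhJ hfJ hhf
  have t3 : Q hr hri (f * h) (R.mul_mem hf hh) hfh = Q hr hri (h * f) (R.mul_mem hh hf) hhf := by
    apply LinearMap.ext
    intro v
    apply Subtype.ext
    change q M J r (f * h * v.1) = q M J r (h * f * v.1)
    rw [mul_comm f h]
  have t4 : LinearMap.trace K (RM R M) (Q hr hri f hf hfJ ∘ₗ Q hr hri h hh hhJ) =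
      LinearMap.trace K (RM R M) (Q hr hri h hh hhJ ∘ₗ Q hr hri f hf hfJ) :=
    LinearMap.trace_mul_comm K _ _
  rw [t3, t4] at t1
  have t5 : ∑ k ∈ Finset.range (2 * N), cf M k (h * q M J r (f * r k)) =
      ∑ k ∈ Finset.range (2 * N), cf M k (f * q M J r (h * r k)) := t1.trans t2.symm
  -- matrices
  have mm : ∀ (a b : LaurentSeries K) (k : ℕ),
      ∑ j ∈ Finset.range J, cf M k (a * r j) * cf M j (b * r k) =
        cf M k (a * b * r k) - cf M k (a * q M J r (b * r k)) := by
    intro a b k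
    have e1 : a * b * r k = a * (b * r k - q M J r (b * r k)) + a * q M J r (b * r k) := by ring
    rw [e1, cf_add, add_sub_cancel_right, ← sum_r, Finset.mul_sum, cf_sum]
    refine Finset.sum_congr rfl fun j _ => ?_
    rw [mul_left_comm, cf_C, mul_comm]
  have s1 : ∑ k ∈ Finset.range (2 * N), ∑ j ∈ Finset.range J,
      (cf M k (f * r j) * cf M j (h * r k) - cf M k (h * r j) * cf M j (f * r k)) = 0 := by
    simp only [Finset.sum_sub_distrib, mm]
    rw [t5, mul_comm f h]
    ring
  have s2 : ∑ k ∈ Finset.range (2 * N), ∑ j ∈ Finset.range (2 * N),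
      (cf M k (f * r j) * cf M j (h * r k) - cf M k (h * r j) * cf M j (f * r k)) = 0 := by
    simp only [Finset.sum_sub_distrib]
    rw [sub_eq_zero, Finset.sum_comm]
    refine Finset.sum_congr rfl fun k _ => Finset.sum_congr rfl fun j _ => ?_
    ring
  have s3 : ∑ k ∈ Finset.range (2 * N), ∑ j ∈ Finset.Ico (2 * N) J,
      (cf M k (f * r j) * cf M j (h * r k) - cf M k (h * r j) * cf M j (f * r k)) = 0 := by
    have e : ∀ k, ∑ j ∈ Finset.Ico (2 * N) J,
        (cf M k (f * r j) * cf M j (h * r k) - cf M k (h * r j) * cf M j (f * r k)) =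
        ∑ j ∈ Finset.range J,
        (cf M k (f * r j) * cf M j (h * r k) - cf M k (h * r j) * cf M j (f * r k)) -
        ∑ j ∈ Finset.range (2 * N),
        (cf M k (f * r j) * cf M j (h * r k) - cf M k (h * r j) * cf M j (f * r k)) := fun k =>
      Finset.sum_Ico_eq_sub _ (by omega)
    simp only [e]
    rw [Finset.sum_sub_distrib, s1, s2, sub_zero]
  obtain ⟨φ, hφ⟩ : ∃ φ : ℤ → K, φ = fun d => f.coeff d * h.coeff (-d) -
    h.coeff d * f.coeff (-d) := ⟨_, rfl⟩
  have s4 : ∑ k ∈ Finset.range (2 * N), ∑ j ∈ Finset.Ico (2 * N) J, φ ((j : ℤ) - k) = 0 := by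
    rw [← s3, hφ]
    refine Finset.sum_congr rfl fun k hk => Finset.sum_congr rfl fun j hj => ?_
    rw [Finset.mem_range] at hk
    rw [Finset.mem_Ico] at hj
    have e1 : -((j : ℤ) - k) = (k : ℤ) - j := by ring
    simp only [e1]
    rw [cf_mul_r hri hhg j k (by omega), cf_mul_r hri hfg j k (by omega)]
    by_cases hkN : N ≤ k
    · rw [cf_mul_r hri hfg k j hkN, cf_mul_r hri hhg k j hkN]
    · have z1 : h.coeff ((k : ℤ) - j) = 0 := hhg _ (by omega)
      have z2 : f.coeff ((k : ℤ) - j) = 0 := hfg _ (by omega)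
      rw [z1, z2]
      ring
  rw [toeplitz φ N (2 * N) J (fun d hd => by
    have z1 : h.coeff (-d) = 0 := hhg _ (by omega)
    have z2 : f.coeff (-d) = 0 := hfg _ (by omega)
    rw [hφ]
    simp only [z1, z2]
    ring) (by omega) (by omega)] at s4
  rw [res_sum hfg hhg, ← s4, hφ]

end Pool.Agent.TH291.EX
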