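import Pool.Agent.TH291.EX.Defs
import Pool.Agent.TH549.CK.P22

set_option autoImplicit false

/-! EX-RES, second proof (helper474): the residue theorem for a smooth pointed curve in `K((w))`,
by the trace of a commutator on a finite-dimensional space. -/

namespace Pool.Agent.TH291.EX

open TensorProduct Pool.Agent.TH549.CK

variable {K : Type} [Field K]

namespace Res474

/-- the coefficients as linear maps -/
noncomputable def cf (R : Subalgebra K (LaurentSeries K)) (k : ℤ) : R →ₗ[K] K where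
  toFun r := (r : LaurentSeries K).coeff k
  map_add' x y := by rw [Subalgebra.coe_add, HahnSeries.coeff_add]
  map_smul' c x := by
    rw [coe_smul', HahnSeries.C_mul_eq_smul, HahnSeries.coeff_smul]
    rfl

variable {R : Subalgebra K (LaurentSeries K)}

theorem cf_apply (k : ℤ) (r : R) : cf R k r = (r : LaurentSeries K).coeff k := rfl

theorem mem_Lp_cf {n : ℕ} {r : R} : r ∈ Lp R n ↔ ∀ j : ℕ, n < j → cf R (-(j : ℤ)) r = 0 := by
  rw [mem_Lp]
  constructor
  · intro h j hj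
    exact h _ (by omega)
  · intro h k hk
    have h1 := h (-k).toNat (by omega)
    rw [cf_apply, Int.toNat_of_nonneg (by omega), neg_neg] at h1
    exact h1

theorem ge_mul {a b : ℤ} {x y : LaurentSeries K} (hx : x ∈ Ge K a) (hy : y ∈ Ge K b) :
    x * y ∈ Ge K (a + b) := by
  intro k hk
  rw [HahnSeries.coeff_mul]
  refine Finset.sum_eq_zero fun p hp => ?_
  rw [Finset.mem_antidiagonal] at hp
  rcases lt_or_ge p.1 a with h | h
  · rw [hx p.1 h, zero_mul]
  · rw [hy p.2 (by omega), mul_zero]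

theorem lp_ge {n : ℕ} {x : R} (hx : x ∈ Lp R n) : (x : LaurentSeries K) ∈ Ge K (-(n : ℤ)) := hx

theorem lp_mul {a b : ℕ} {x y : R} (hx : x ∈ Lp R a) (hy : y ∈ Lp R b) :
    x * y ∈ Lp R (a + b) := by
  intro k hk
  rw [Subalgebra.coe_mul]
  refine ge_mul (lp_ge hx) (lp_ge hy) k ?_
  push_cast at hk
  omega

theorem finite_gen {k A : Type} [Field k] [CommRing A] [Algebra k A] (V : Submodule k A)
    (h : 0 < Module.finrank k V) : Module.Finite k V :=
  Module.finite_of_finrank_pos h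

theorem mono_gen {k A : Type} [Field k] [CommRing A] [Algebra k A] {V W : Submodule k A}
    (hW : Module.Finite k W) (h : V ≤ W) : Module.finrank k V ≤ Module.finrank k W :=
  Submodule.finrank_mono h

theorem trace_gen {k A : Type} [Field k] [CommRing A] [Algebra k A] {L : Submodule k A}
    (hL : Module.Finite k L) (P C : A →ₗ[k] A) (f h : A)
    (hC : ∀ x, P (f * P (h * x)) = P (h * P (f * x)) + C x)
    (hf : ∀ x ∈ L, P (f * x) ∈ L) (hh : ∀ x ∈ L, P (h * x) ∈ L) (s : Finset ℕ)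
    (φ : ℕ → A →ₗ[k] k) (v : ℕ → A) (hv : ∀ i ∈ s, C (v i) ∈ L)
    (hdec : ∀ x ∈ L, C x = ∑ i ∈ s, φ i x • C (v i)) : ∑ i ∈ s, φ i (C (v i)) = 0 := by
  classical
  let F : L →ₗ[k] L := (P ∘ₗ LinearMap.mulLeft k f).restrict hf
  let H : L →ₗ[k] L := (P ∘ₗ LinearMap.mulLeft k h).restrict hh
  let w : ℕ → L := fun i => if hi : i ∈ s then ⟨C (v i), hv i hi⟩ else 0
  have hw : ∀ i ∈ s, ((w i : L) : A) = C (v i) := by
    intro i hi
    simp only [w]
    rw [dif_pos hi]
  let C' : L →ₗ[k] L := ∑ i ∈ s, ((φ i).comp L.subtype).smulRight (w i)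
  have h1 : LinearMap.trace k L (F ∘ₗ H) = LinearMap.trace k L (H ∘ₗ F) :=
    LinearMap.trace_comp_comm' _ _
  have h2 : F ∘ₗ H = H ∘ₗ F + C' := by
    ext1 x
    apply Subtype.ext
    have h3 : ((F ∘ₗ H) x : A) = P (f * P (h * x)) := rfl
    have h4 : ((H ∘ₗ F) x : A) = P (h * P (f * x)) := rfl
    have h5 : ((C' x : L) : A) = C x := by
      rw [hdec x x.2]
      simp only [C']
      rw [LinearMap.sum_apply, Submodule.coe_sum]
      refine Finset.sum_congr rfl fun i hi => ?_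
      rw [LinearMap.smulRight_apply, Submodule.coe_smul, hw i hi]
      rfl
    rw [LinearMap.add_apply, Submodule.coe_add, h3, h4, h5, hC]
  rw [h2, map_add] at h1
  have h6 : LinearMap.trace k L C' = 0 := by
    exact add_eq_left.1 h1
  have h7 : LinearMap.trace k L C' = ∑ i ∈ s, φ i (C (v i)) := by
    simp only [C']
    rw [map_sum]
    refine Finset.sum_congr rfl fun i hi => ?_
    rw [LinearMap.trace_smulRight, LinearMap.comp_apply, Submodule.subtype_apply, hw i hi]
  rw [← h7, h6]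

theorem exists_top {g : ℕ} (hR : IsSmoothCurve R g) {k : ℕ} (hk : 2 * g < k) :
    ∃ s : R, s ∈ Lp R k ∧ cf R (-(k : ℤ)) s = 1 := by
  have h1 := hR.genus k (by omega)
  have h2 := hR.genus (k - 1) (by omega)
  have hfin : Module.Finite K (Lp R (k - 1)) := finite_gen _ (by omega)
  have h3 : ∃ s ∈ Lp R k, cf R (-(k : ℤ)) s ≠ 0 := by
    by_contra hcon
    push Not at hcon
    have h4 : Lp R k ≤ Lp R (k - 1) := by
      intro s hs
      rw [mem_Lp_cf]
      intro j hj
      rcases eq_or_ne j k with rfl | hne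
      · exact hcon s hs
      · exact mem_Lp_cf.1 hs j (by omega)
    have h5 := mono_gen hfin h4
    omega
  obtain ⟨s, hs, hs0⟩ := h3
  refine ⟨(cf R (-(k : ℤ)) s)⁻¹ • s, Submodule.smul_mem _ _ hs, ?_⟩
  rw [map_smul, smul_eq_mul, inv_mul_cancel₀ hs0]

/-- normalised elements -/
theorem exists_rho {g : ℕ} (hR : IsSmoothCurve R g) :
    ∃ ρ : ℕ → R, ∀ k, 2 * g < k → ∀ j : ℕ, 2 * g < j →
      cf R (-(j : ℤ)) (ρ k) = if j = k then 1 else 0 := by
  have key : ∀ k : ℕ, ∃ r : R, 2 * g < k → ∀ j : ℕ, 2 * g < j →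
      cf R (-(j : ℤ)) r = if j = k then 1 else 0 := by
    intro k
    induction k using Nat.strong_induction_on with
    | _ k ih =>
      by_cases hk : 2 * g < k
      · choose! r hr using ih
        obtain ⟨s, hs, hs1⟩ := exists_top hR hk
        refine ⟨s - ∑ l ∈ Finset.Ioo (2 * g) k, cf R (-(l : ℤ)) s • r l, fun _ j hj => ?_⟩
        rw [map_sub, map_sum]
        have h1 : ∀ l ∈ Finset.Ioo (2 * g) k, cf R (-(j : ℤ)) (cf R (-(l : ℤ)) s • r l) =
            if j = l then cf R (-(l : ℤ)) s else 0 := by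
          intro l hl
          rw [Finset.mem_Ioo] at hl
          rw [map_smul, smul_eq_mul, hr l hl.2 hl.1 j hj]
          split_ifs
          · rw [mul_one]
          · rw [mul_zero]
        rw [Finset.sum_congr rfl h1, Finset.sum_ite_eq]
        rcases lt_trichotomy j k with h | h | h
        · rw [if_pos (Finset.mem_Ioo.2 ⟨hj, h⟩), if_neg h.ne, sub_self]
        · subst h
          rw [if_neg (by rw [Finset.mem_Ioo]; omega), if_pos rfl, sub_zero, hs1]
        · rw [if_neg (by rw [Finset.mem_Ioo]; omega), if_neg h.ne', sub_zero,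
            mem_Lp_cf.1 hs j h]
      · exact ⟨0, fun h => absurd h hk⟩
  choose ρ hρ using key
  exact ⟨ρ, hρ⟩

section
variable (ρ : ℕ → R) (M N : ℕ)

/-- the projection -/
noncomputable def pr : R →ₗ[K] R :=
  LinearMap.id - ∑ l ∈ Finset.Ioc M (M + N), (cf R (-(l : ℤ))).smulRight (ρ l)

theorem pr_apply (x : R) :
    pr ρ M N x = x - ∑ l ∈ Finset.Ioc M (M + N), cf R (-(l : ℤ)) x • ρ l := by
  unfold pr
  rw [LinearMap.sub_apply, LinearMap.id_apply, LinearMap.sum_apply]
  rfl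

variable {ρ M N} {m : ℕ}
  (hρ : ∀ k, m < k → ∀ j : ℕ, m < j → cf R (-(j : ℤ)) (ρ k) = if j = k then 1 else 0)
  (hmM : m ≤ M)

include hρ

theorem rho_mem {k n : ℕ} (hk : m < k) (hn : k ≤ n) : ρ k ∈ Lp R n := by
  rw [mem_Lp_cf]
  intro j hj
  rw [hρ k hk j (by omega), if_neg (by omega)]

include hmM

theorem cf_pr {k : ℕ} (hk : m < k) (hkM : k ≤ M) (x : R) :
    cf R (-(k : ℤ)) (pr ρ M N x) = cf R (-(k : ℤ)) x := by
  rw [pr_apply, map_sub, map_sum, Finset.sum_eq_zero, sub_zero]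
  intro l hl
  rw [Finset.mem_Ioc] at hl
  rw [map_smul, hρ l (by omega) k hk, if_neg (by omega), smul_zero]

theorem pr_mem {x : R} (hx : x ∈ Lp R (N + M)) : pr ρ M N x ∈ Lp R M := by
  rw [mem_Lp_cf]
  intro j hj
  rw [pr_apply, map_sub, map_sum]
  have h1 : ∀ l ∈ Finset.Ioc M (M + N), cf R (-(j : ℤ)) (cf R (-(l : ℤ)) x • ρ l) =
      if j = l then cf R (-(l : ℤ)) x else 0 := by
    intro l hl
    rw [Finset.mem_Ioc] at hl
    rw [map_smul, smul_eq_mul, hρ l (by omega) j (by omega)]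
    split_ifs
    · rw [mul_one]
    · rw [mul_zero]
  rw [Finset.sum_congr rfl h1, Finset.sum_ite_eq]
  by_cases h : j ≤ M + N
  · rw [if_pos (Finset.mem_Ioc.2 ⟨hj, h⟩), sub_self]
  · rw [if_neg (by rw [Finset.mem_Ioc]; omega), sub_zero, mem_Lp_cf.1 hx j (by omega)]

omit hmM in
theorem cf_mul_rho {x : R} (hx : x ∈ Lp R N) {k l : ℕ} (hk : m < k) (hl : m + N < l) :
    cf R (-(l : ℤ)) (x * ρ k) = (x : LaurentSeries K).coeff ((k : ℤ) - l) := by
  have he : (ρ k : LaurentSeries K) - HahnSeries.single (-(k : ℤ)) (1 : K) ∈ Ge K (-(m : ℤ)) := by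
    intro j hj
    have h1 := hρ k hk (-j).toNat (by omega)
    rw [cf_apply, Int.toNat_of_nonneg (by omega), neg_neg] at h1
    rw [HahnSeries.coeff_sub, h1]
    by_cases h : j = -(k : ℤ)
    · rw [if_pos (by omega), h, HahnSeries.coeff_single_same, sub_self]
    · rw [if_neg (by omega), HahnSeries.coeff_single_of_ne h, sub_zero]
  have h2 := ge_mul (lp_ge hx) he (-(l : ℤ)) (by omega)
  rw [mul_sub, HahnSeries.coeff_sub, sub_eq_zero] at h2
  rw [cf_apply, Subalgebra.coe_mul, h2]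
  have h3 := HahnSeries.coeff_mul_single_add (r := (1 : K)) (x := (x : LaurentSeries K))
    (a := (k : ℤ) - l) (b := -(k : ℤ))
  rw [mul_one, show (k : ℤ) - l + -(k : ℤ) = -(l : ℤ) by ring] at h3
  exact h3

omit hρ hmM in
/-- the commutator -/
noncomputable def cm (ρ : ℕ → R) (M N : ℕ) (f h : R) : R →ₗ[K] R :=
  (pr ρ M N) ∘ₗ (LinearMap.mulLeft K f) ∘ₗ (pr ρ M N) ∘ₗ (LinearMap.mulLeft K h) -
    (pr ρ M N) ∘ₗ (LinearMap.mulLeft K h) ∘ₗ (pr ρ M N) ∘ₗ (LinearMap.mulLeft K f)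

omit hρ hmM in
theorem cm_apply (f h x : R) : cm ρ M N f h x =
    pr ρ M N (f * pr ρ M N (h * x)) - pr ρ M N (h * pr ρ M N (f * x)) := rfl

omit hρ hmM in
theorem pr_of_mem {x : R} (hx : x ∈ Lp R M) : pr ρ M N x = x := by
  rw [pr_apply, Finset.sum_eq_zero, sub_zero]
  intro l hl
  rw [Finset.mem_Ioc] at hl
  rw [mem_Lp_cf.1 hx l hl.1, zero_smul]

omit hρ hmM in
theorem cm_zero {f h : R} (hf : f ∈ Lp R N) (hh : h ∈ Lp R N) (x : R) {M' : ℕ}
    (hM' : N + M' ≤ M) (hx : x ∈ Lp R M') : cm ρ M N f h x = 0 := by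
  have hmono : ∀ {y : R}, y ∈ Lp R (N + M') → y ∈ Lp R M := by
    intro y hy k hk
    exact hy k (by push_cast; omega)
  have h1 : f * x ∈ Lp R M := hmono (lp_mul hf hx)
  have h2 : h * x ∈ Lp R M := hmono (lp_mul hh hx)
  rw [cm_apply, pr_of_mem h1, pr_of_mem h2, ← mul_assoc, ← mul_assoc, mul_comm f h, sub_self]

omit hρ hmM in
theorem mul_pr (f y : R) :
    f * pr ρ M N y = f * y - ∑ l ∈ Finset.Ioc M (M + N), cf R (-(l : ℤ)) y • (f * ρ l) := by
  rw [pr_apply, mul_sub, Finset.mul_sum]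
  congr 1
  exact Finset.sum_congr rfl fun l _ => mul_smul_comm _ _ _

/-- the diagonal coefficients of the commutator -/
theorem cf_cm {f h : R} (hf : f ∈ Lp R N) (hh : h ∈ Lp R N) (hM : M = m + 2 * N) {k : ℕ}
    (hk : m + N < k) (hkM : k ≤ M) :
    cf R (-(k : ℤ)) (cm ρ M N f h (ρ k)) =
      ∑ l ∈ Finset.Ioc M (M + N),
        ((f : LaurentSeries K).coeff ((k : ℤ) - l) * (h : LaurentSeries K).coeff ((l : ℤ) - k) -
        (h : LaurentSeries K).coeff ((k : ℤ) - l) * (f : LaurentSeries K).coeff ((l : ℤ) - k)) := by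
  rw [cm_apply, map_sub, cf_pr hρ hmM (by omega) hkM, cf_pr hρ hmM (by omega) hkM, mul_pr, mul_pr,
    map_sub, map_sub, map_sum, map_sum, mul_left_comm f h, sub_sub_sub_cancel_left,
    ← Finset.sum_sub_distrib]
  refine Finset.sum_congr rfl fun l hl => ?_
  rw [Finset.mem_Ioc] at hl
  rw [map_smul, map_smul, smul_eq_mul, smul_eq_mul,
    cf_mul_rho hρ hf (k := k) (l := l) (by omega) (by omega),
    cf_mul_rho hρ hh (k := l) (l := k) (by omega) hk,
    cf_mul_rho hρ hh (k := k) (l := l) (by omega) (by omega),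
    cf_mul_rho hρ hf (k := l) (l := k) (by omega) hk]

theorem double_sum {f h : R} (hf : f ∈ Lp R N) (hh : h ∈ Lp R N) (hM : M = m + 2 * N)
    (hL : Module.Finite K (Lp R M)) :
    ∑ k ∈ Finset.Ioc (m + N) M, ∑ l ∈ Finset.Ioc M (M + N),
        ((f : LaurentSeries K).coeff ((k : ℤ) - l) * (h : LaurentSeries K).coeff ((l : ℤ) - k) -
        (h : LaurentSeries K).coeff ((k : ℤ) - l) * (f : LaurentSeries K).coeff ((l : ℤ) - k)) =
      0 := by
  have hf1 : ∀ x ∈ Lp R M, pr ρ M N (f * x) ∈ Lp R M := fun x hx =>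
    pr_mem hρ hmM (lp_mul hf hx)
  have hh1 : ∀ x ∈ Lp R M, pr ρ M N (h * x) ∈ Lp R M := fun x hx =>
    pr_mem hρ hmM (lp_mul hh hx)
  have h2 := trace_gen hL (pr ρ M N) (cm ρ M N f h) f h (fun x => by
      rw [cm_apply, add_sub_cancel]) hf1 hh1 (Finset.Ioc (m + N) M)
    (fun k => cf R (-(k : ℤ))) ρ (fun k hk => by
      have hk' := Finset.mem_Ioc.1 hk
      have hr : ρ k ∈ Lp R M := rho_mem hρ (by omega) hk'.2
      rw [cm_apply]
      exact sub_mem (hf1 _ (hh1 _ hr)) (hh1 _ (hf1 _ hr))) (by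
      intro x hx
      have h3 : cm ρ M N f h (x - ∑ k ∈ Finset.Ioc (m + N) M, cf R (-(k : ℤ)) x • ρ k) = 0 := by
        apply cm_zero hf hh _ (M' := m + N) (by omega)
        rw [mem_Lp_cf]
        intro j hj
        rw [map_sub, sub_eq_zero, map_sum]
        have h4 : ∀ k ∈ Finset.Ioc (m + N) M, cf R (-(j : ℤ)) (cf R (-(k : ℤ)) x • ρ k) =
            if j = k then cf R (-(k : ℤ)) x else 0 := by
          intro k hk
          have hk' := Finset.mem_Ioc.1 hk
          rw [map_smul, smul_eq_mul, hρ k (by omega) j (by omega)]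
          split_ifs
          · rw [mul_one]
          · rw [mul_zero]
        rw [Finset.sum_congr rfl h4, Finset.sum_ite_eq]
        by_cases h : j ≤ M
        · rw [if_pos (Finset.mem_Ioc.2 ⟨hj, h⟩)]
        · rw [if_neg (by rw [Finset.mem_Ioc]; omega), mem_Lp_cf.1 hx j (by omega)]
      rw [map_sub, sub_eq_zero, map_sum] at h3
      rw [h3]
      exact Finset.sum_congr rfl fun k _ => map_smul _ _ _)
  rw [← h2]
  refine Finset.sum_congr rfl fun k hk => ?_
  have hk' := Finset.mem_Ioc.1 hk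
  exact (cf_cm hρ hmM hf hh hM hk'.1 hk'.2).symm

end

/-- counting the pairs with a given difference -/
theorem pair_sum (φ : ℤ → K) (m N : ℕ) (hφ : ∀ d : ℤ, (N : ℤ) < d → φ d = 0) :
    ∑ k ∈ Finset.Ioc (m + N) (m + 2 * N), ∑ l ∈ Finset.Ioc (m + 2 * N) (m + 2 * N + N),
      φ ((l : ℤ) - k) = ∑ d ∈ Finset.Icc 1 N, (d : K) * φ d := by
  have h1 : ∀ k ∈ Finset.Ioc (m + N) (m + 2 * N),
      ∑ l ∈ Finset.Ioc (m + 2 * N) (m + 2 * N + N), φ ((l : ℤ) - k) =
      ∑ d ∈ Finset.Icc 1 N, if m + 2 * N < k + d then φ d else 0 := by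
    intro k hk
    rw [Finset.mem_Ioc] at hk
    rw [← Finset.sum_filter]
    symm
    refine Finset.sum_of_injOn (fun d => k + d) ?_ ?_ ?_ ?_
    · intro a _ b _ hab
      simp only at hab
      omega
    · intro d hd
      rw [Finset.mem_coe, Finset.mem_filter, Finset.mem_Icc] at hd
      rw [Finset.mem_coe, Finset.mem_Ioc]
      simp only
      omega
    · intro l hl hn
      rw [Finset.mem_Ioc] at hl
      apply hφ
      by_contra hcon
      apply hn
      refine ⟨l - k, ?_, ?_⟩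
      · rw [Finset.mem_coe, Finset.mem_filter, Finset.mem_Icc]
        omega
      · simp only
        omega
    · intro d _
      congr 1
      push_cast
      ring
  rw [Finset.sum_congr rfl h1, Finset.sum_comm]
  refine Finset.sum_congr rfl fun d hd => ?_
  rw [Finset.mem_Icc] at hd
  rw [← Finset.sum_filter, Finset.sum_const, nsmul_eq_mul]
  congr 2
  have h2 : (Finset.Ioc (m + N) (m + 2 * N)).filter (fun k => m + 2 * N < k + d) =
      Finset.Ioc (m + 2 * N - d) (m + 2 * N) := by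
    ext k
    rw [Finset.mem_filter, Finset.mem_Ioc, Finset.mem_Ioc]
    omega
  rw [h2, Nat.card_Ioc]
  omega

theorem sym_sum (ψ : ℤ → K) (N : ℕ) :
    ∑ b ∈ Finset.Icc (-(N : ℤ)) N, ψ b = ψ 0 + ∑ d ∈ Finset.Icc 1 N, (ψ d + ψ (-(d : ℤ))) := by
  induction N with
  | zero => simp
  | succ n ih =>
    have h1 : Finset.Icc (-((n + 1 : ℕ) : ℤ)) ((n + 1 : ℕ) : ℤ) =
        insert ((n + 1 : ℕ) : ℤ) (insert (-((n + 1 : ℕ) : ℤ)) (Finset.Icc (-(n : ℤ)) n)) := by
      ext b
      simp only [Finset.mem_insert, Finset.mem_Icc]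
      push_cast
      omega
    rw [h1, Finset.sum_insert, Finset.sum_insert, ih, Finset.sum_Icc_succ_top (by omega)]
    · ring
    · rw [Finset.mem_Icc]; push_cast; omega
    · rw [Finset.mem_insert, Finset.mem_Icc]; push_cast; omega

/-- the residue as a sum -/
theorem res_sum {N : ℕ} {f h : LaurentSeries K} (hf : f ∈ Ge K (-(N : ℤ)))
    (hh : h ∈ Ge K (-(N : ℤ))) :
    (dd f * h).coeff (-1) =
      ∑ d ∈ Finset.Icc 1 N, (d : K) * (f.coeff d * h.coeff (-(d : ℤ)) -
        f.coeff (-(d : ℤ)) * h.coeff d) := by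
  have hd : ∀ k : ℤ, (dd f).coeff k = (k + 1) • f.coeff (k + 1) := by
    intro k
    unfold dd
    rw [LaurentSeries.hasseDeriv_coeff, Nat.cast_one, Ring.choose_one_right]
  rw [P22.coeff_mul_Icc (dd f) h (-1) (-(N : ℤ) - 1) ((N : ℤ) - 1) (fun k hk => by
    rw [hd, hf _ (by omega), smul_zero]) (fun k hk => hh _ (by omega))]
  have h1 : ∑ a ∈ Finset.Icc (-(N : ℤ) - 1) ((N : ℤ) - 1), (dd f).coeff a * h.coeff (-1 - a) =
      ∑ b ∈ Finset.Icc (-(N : ℤ)) N, (b : K) * (f.coeff b * h.coeff (-b)) := by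
    refine Finset.sum_nbij' (fun a => a + 1) (fun a => a - 1) ?_ ?_ ?_ ?_ ?_
    · intro a ha
      rw [Finset.mem_Icc] at ha ⊢
      omega
    · intro a ha
      rw [Finset.mem_Icc] at ha ⊢
      omega
    · intro a _
      simp
    · intro a _
      simp
    · intro a _
      rw [hd, show -1 - a = -(a + 1) by ring, zsmul_eq_mul, mul_assoc]
  rw [h1, sym_sum]
  rw [Int.cast_zero, zero_mul, zero_add]
  refine Finset.sum_congr rfl fun d _ => ?_
  rw [neg_neg]
  push_cast
  ring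

end Res474

open Res474 in
theorem residue_474 {R : Subalgebra K (LaurentSeries K)} {g : ℕ}
    (hR : IsSmoothCurve R g) {f h : LaurentSeries K} (hf : f ∈ R) (hh : h ∈ R) :
    (dd f * h).coeff (-1) = 0 := by
  obtain ⟨ρ, hρ⟩ := exists_rho hR
  have htop : ∀ x : LaurentSeries K, ∃ n : ℕ, ∀ k : ℤ, k < -(n : ℤ) → x.coeff k = 0 := by
    intro x
    refine ⟨(-x.order).toNat, fun k hk => HahnSeries.coeff_eq_zero_of_lt_order ?_⟩
    have := Int.self_le_toNat (-x.order)
    omega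
  obtain ⟨n1, hn1⟩ := htop f
  obtain ⟨n2, hn2⟩ := htop h
  set N := n1 + n2 with hN
  have hf' : (⟨f, hf⟩ : R) ∈ Lp R N := fun k hk => hn1 k (by push_cast [hN] at hk; omega)
  have hh' : (⟨h, hh⟩ : R) ∈ Lp R N := fun k hk => hn2 k (by push_cast [hN] at hk; omega)
  have hL : Module.Finite K (Lp R (2 * g + 2 * N)) := by
    have h1 := hR.genus (2 * g + 2 * N) (by omega)
    rcases Nat.eq_zero_or_pos (2 * g + 2 * N + 1 - g) with h0 | h0
    · omega
    · exact finite_gen _ (by omega)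
  have hds := double_sum (m := 2 * g) (M := 2 * g + 2 * N) hρ (by omega) hf' hh' rfl hL
  have hps := pair_sum (fun d : ℤ => f.coeff (-d) * h.coeff d - h.coeff (-d) * f.coeff d) (2 * g) N
    (fun d hd => by
      rw [lp_ge hf' (-d) (by omega), lp_ge hh' (-d) (by omega), zero_mul, zero_mul, sub_zero])
  simp only [neg_sub] at hps
  rw [hps] at hds
  rw [res_sum (lp_ge hf') (lp_ge hh')]
  rw [← neg_eq_zero, ← hds, ← Finset.sum_neg_distrib]
  refine Finset.sum_congr rfl fun d _ => ?_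
  ring

end Pool.Agent.TH291.EX
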